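import Mathlib

/-!
# Fractional clique partitions by linear programming duality

If every dual weighting of a finite graph has total weight at most `B`, then the graph has a
fractional clique partition of total weight at most `B + δ`.
-/

open Finset

namespace Pool.Agent.H29.CPR

/-- `K` is a clique of `H`. -/
def IsCl {V : Type} (H : SimpleGraph V) (K : Finset V) : Prop :=
  ∀ u ∈ K, ∀ v ∈ K, u ≠ v → H.Adj u v

/-- Total weight of the ordered pairs inside `K`. -/
noncomputable def pw {V : Type} [DecidableEq V] (y : V → V → ℝ) (K : Finset V) : ℝ :=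
  ∑ u ∈ K, ∑ v ∈ K, if u = v then 0 else y u v

/-- Total weight of the edges (ordered). -/
noncomputable def tot {V : Type} [Fintype V] (H : SimpleGraph V) [DecidableRel H.Adj]
    (y : V → V → ℝ) : ℝ := ∑ u, ∑ v, if H.Adj u v then y u v else 0

section

variable {V : Type} [Fintype V] [DecidableEq V]

/-- indicator column of a clique -/
def col (K : Finset V) : V → V → ℝ := fun u v => if u ∈ K ∧ v ∈ K ∧ u ≠ v then 1 else 0

theorem pw_eq_sum_col (y : V → V → ℝ) (K : Finset V) :
    pw y K = ∑ u, ∑ v, y u v * col K u v := by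
  unfold pw
  rw [← Finset.sum_subset (Finset.subset_univ K)]
  · refine Finset.sum_congr rfl fun u hu => ?_
    rw [← Finset.sum_subset (Finset.subset_univ K)]
    · refine Finset.sum_congr rfl fun v hv => ?_
      by_cases h : u = v
      · simp [h, col]
      · simp [h, col, hu, hv]
    · intro v _ hv
      simp [col, hv]
  · intro u _ hu
    refine Finset.sum_eq_zero fun v _ => ?_
    simp [col, hu]

/-- The cone of (coverage, cost) pairs. -/
def coneSet (H : SimpleGraph V) : Set ((V → V → ℝ) × ℝ) :=
  {z | ∃ (x : Finset V → ℝ) (s : ℝ), (∀ K, 0 ≤ x K) ∧ 0 ≤ s ∧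
    (∀ K, x K ≠ 0 → IsCl H K ∧ 2 ≤ K.card) ∧
    z = (fun u v => ∑ K, x K * col K u v, ∑ K, x K + s)}

theorem coneSet_convex (H : SimpleGraph V) : Convex ℝ (coneSet H) := by
  rintro _ ⟨x, s, hx, hs, hK, rfl⟩ _ ⟨x', s', hx', hs', hK', rfl⟩ a b ha hb hab
  refine ⟨fun K => a * x K + b * x' K, a * s + b * s', ?_, ?_, ?_, ?_⟩
  · intro K
    have := hx K; have := hx' K
    positivity
  · positivity
  · intro K hne
    by_cases h : x K = 0
    · by_cases h' : x' K = 0
      · exact absurd (by simp [h, h']) hne
      · exact hK' K h'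
    · exact hK K h
  · ext u v
    · simp only [Prod.smul_mk, Prod.mk_add_mk, Pi.add_apply, Pi.smul_apply, smul_eq_mul]
      rw [Finset.mul_sum, Finset.mul_sum, ← Finset.sum_add_distrib]
      refine Finset.sum_congr rfl fun K _ => ?_
      ring
    · simp only [Prod.smul_mk, Prod.mk_add_mk, smul_eq_mul]
      rw [Finset.sum_add_distrib, ← Finset.mul_sum, ← Finset.mul_sum]
      ring

theorem coneSet_smul (H : SimpleGraph V) {z : (V → V → ℝ) × ℝ} (hz : z ∈ coneSet H) {c : ℝ}
    (hc : 0 ≤ c) : c • z ∈ coneSet H := by
  obtain ⟨x, s, hx, hs, hK, rfl⟩ := hz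
  refine ⟨fun K => c * x K, c * s, fun K => mul_nonneg hc (hx K), mul_nonneg hc hs, ?_, ?_⟩
  · intro K hne
    exact hK K (fun h => hne (by simp [h]))
  · ext u v
    · simp only [Prod.smul_mk, Pi.smul_apply, smul_eq_mul]
      rw [Finset.mul_sum]
      refine Finset.sum_congr rfl fun K _ => ?_
      ring
    · simp only [Prod.smul_mk, smul_eq_mul]
      rw [← Finset.mul_sum]
      ring

theorem zero_mem_coneSet (H : SimpleGraph V) : (0 : (V → V → ℝ) × ℝ) ∈ coneSet H := by
  refine ⟨fun _ => 0, 0, fun _ => le_rfl, le_rfl, fun K h => absurd rfl h, ?_⟩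
  ext u v <;> simp

end

section

variable {V : Type} [Fintype V] [DecidableEq V] (H : SimpleGraph V) [DecidableRel H.Adj]

/-- the target vector -/
def target : V → V → ℝ := fun u v => if H.Adj u v then 1 else 0

theorem mem_closure (B : ℝ)
    (hB : ∀ y : V → V → ℝ, (∀ K, IsCl H K → pw y K ≤ 2) → tot H y ≤ 2 * B) :
    ((target H, B) : (V → V → ℝ) × ℝ) ∈ closure (coneSet H) := by
  by_contra hp
  obtain ⟨f, r, hfr, hr⟩ := geometric_hahn_banach_point_closed (coneSet_convex H).closure
    isClosed_closure hp
  have h0 : r < 0 := by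
    have := hr 0 (subset_closure (zero_mem_coneSet H))
    simpa using this
  have hpos : ∀ z ∈ coneSet H, 0 ≤ f z := by
    intro z hz
    by_contra hneg
    push Not at hneg
    have hc : 0 ≤ r / f z := by
      exact le_of_lt (div_pos_of_neg_of_neg h0 hneg)
    have h1 := hr _ (subset_closure (coneSet_smul H hz hc))
    rw [map_smul, smul_eq_mul, div_mul_cancel₀ _ hneg.ne] at h1
    exact lt_irrefl _ h1
  -- coordinates of `f`
  let E : V → V → (V → V → ℝ) := fun u v a b => if a = u ∧ b = v then 1 else 0
  let y : V → V → ℝ := fun u v => - f (E u v, 0)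
  let t : ℝ := f (0, 1)
  have hdec : ∀ (a : V → V → ℝ) (c : ℝ), f (a, c) = - (∑ u, ∑ v, y u v * a u v) + t * c := by
    intro a c
    have h1 : ((a, c) : (V → V → ℝ) × ℝ) = (∑ u, ∑ v, a u v • ((E u v, 0) : (V → V → ℝ) × ℝ))
        + c • (0, 1) := by
      ext p q
      · simp only [Prod.fst_add, Prod.fst_sum, Prod.smul_fst, smul_zero, add_zero,
          Finset.sum_apply, Pi.smul_apply, smul_eq_mul, E]
        rw [Finset.sum_eq_single p]
        · rw [Finset.sum_eq_single q]
          · simp
          · intro b _ hb
            simp [Ne.symm hb]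
          · simp
        · intro b _ hb
          refine Finset.sum_eq_zero fun v _ => ?_
          simp [Ne.symm hb]
        · simp
      · simp [Prod.snd_sum]
    rw [h1, map_add, map_smul, map_sum, smul_eq_mul]
    have h2 : ∀ u, f (∑ v, a u v • ((E u v, 0) : (V → V → ℝ) × ℝ)) = - ∑ v, y u v * a u v := by
      intro u
      rw [map_sum, ← Finset.sum_neg_distrib]
      refine Finset.sum_congr rfl fun v _ => ?_
      rw [map_smul, smul_eq_mul]
      simp only [y]
      ring
    rw [Finset.sum_congr rfl fun u _ => h2 u, Finset.sum_neg_distrib]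
    simp only [t]
    ring
  have ht : 0 ≤ t := by
    have : ((0, 1) : (V → V → ℝ) × ℝ) ∈ coneSet H := by
      refine ⟨fun _ => 0, 1, fun _ => le_rfl, zero_le_one, fun K h => absurd rfl h, ?_⟩
      ext u v <;> simp
    exact hpos _ this
  have hK : ∀ K, IsCl H K → pw y K ≤ t := by
    intro K hKc
    by_cases h2 : 2 ≤ K.card
    · have : ((col K, 1) : (V → V → ℝ) × ℝ) ∈ coneSet H := by
        refine ⟨fun K' => if K' = K then 1 else 0, 0, ?_, le_rfl, ?_, ?_⟩
        · intro K'
          dsimp only
          split_ifs <;> norm_num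
        · intro K' h
          by_cases hh : K' = K
          · rw [hh]; exact ⟨hKc, h2⟩
          · simp [hh] at h
        · ext u v <;> simp
      have h3 := hpos _ this
      rw [hdec, mul_one, ← pw_eq_sum_col] at h3
      linarith
    · have h3 : pw y K = 0 := by
        unfold pw
        refine Finset.sum_eq_zero fun u hu => Finset.sum_eq_zero fun v hv => ?_
        have : u = v := by
          have hc : K.card ≤ 1 := by omega
          exact Finset.card_le_one.1 hc u hu v hv
        simp [this]
      rw [h3]; exact ht
  have htot : f (target H, B) = - tot H y + t * B := by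
    rw [hdec]
    congr 2
    unfold tot target
    refine Finset.sum_congr rfl fun u _ => Finset.sum_congr rfl fun v _ => ?_
    split_ifs <;> simp
  have hneg : f (target H, B) < 0 := lt_trans hfr h0
  rw [htot] at hneg
  rcases ht.eq_or_lt with h | h
  · -- t = 0
    rw [← h] at hneg hK
    have hty : 0 < tot H y := by linarith
    have hsc : ∀ c : ℝ, 0 ≤ c → c * tot H y ≤ 2 * B := by
      intro c hc
      have := hB (fun u v => c * y u v) ?_
      · have e : tot H (fun u v => c * y u v) = c * tot H y := by
          unfold tot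
          rw [Finset.mul_sum]
          refine Finset.sum_congr rfl fun u _ => ?_
          rw [Finset.mul_sum]
          refine Finset.sum_congr rfl fun v _ => ?_
          split_ifs <;> simp
        rw [e] at this
        exact this
      · intro K hKc
        have e : pw (fun u v => c * y u v) K = c * pw y K := by
          unfold pw
          rw [Finset.mul_sum]
          refine Finset.sum_congr rfl fun u _ => ?_
          rw [Finset.mul_sum]
          refine Finset.sum_congr rfl fun v _ => ?_
          split_ifs <;> simp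
        rw [e]
        have := hK K hKc
        nlinarith
    have h1 := hsc ((|2 * B| + 1) / tot H y) (by positivity)
    rw [div_mul_cancel₀ _ hty.ne'] at h1
    have := le_abs_self (2 * B)
    linarith
  · have hyt := hB (fun u v => 2 / t * y u v) ?_
    · have e : tot H (fun u v => 2 / t * y u v) = 2 / t * tot H y := by
        unfold tot
        rw [Finset.mul_sum]
        refine Finset.sum_congr rfl fun u _ => ?_
        rw [Finset.mul_sum]
        refine Finset.sum_congr rfl fun v _ => ?_
        split_ifs <;> simp
      rw [e] at hyt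
      have h5 : t * B < tot H y := by linarith
      have h6 : 2 / t * (t * B) < 2 / t * tot H y := by
        apply mul_lt_mul_of_pos_left h5
        positivity
      have h7 : 2 / t * (t * B) = 2 * B := by
        field_simp
      linarith
    · intro K hKc
      have e : pw (fun u v => 2 / t * y u v) K = 2 / t * pw y K := by
        unfold pw
        rw [Finset.mul_sum]
        refine Finset.sum_congr rfl fun u _ => ?_
        rw [Finset.mul_sum]
        refine Finset.sum_congr rfl fun v _ => ?_
        split_ifs <;> simp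
      rw [e]
      have := hK K hKc
      calc 2 / t * pw y K ≤ 2 / t * t := by
            apply mul_le_mul_of_nonneg_left this
            positivity
        _ = 2 := by field_simp

/-- **Approximate duality.** -/
theorem exists_fractional (B : ℝ)
    (hB : ∀ y : V → V → ℝ, (∀ K, IsCl H K → pw y K ≤ 2) → tot H y ≤ 2 * B)
    (δ : ℝ) (hδ : 0 < δ) :
    ∃ x : Finset V → ℝ, (∀ K, 0 ≤ x K) ∧ (∀ K, x K ≠ 0 → IsCl H K ∧ 2 ≤ K.card) ∧
      (∀ u v, H.Adj u v → ∑ K, x K * col K u v ≤ 1) ∧
      (∀ u v, H.Adj u v → 1 - δ ≤ ∑ K, x K * col K u v) ∧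
      ∑ K, x K ≤ B + δ := by
  have hcl := mem_closure H B hB
  have hB0 : 0 ≤ B := by
    have := hB (fun _ _ => 0) (by intro K _; simp [pw])
    simp [tot] at this
    linarith
  rw [Metric.mem_closure_iff] at hcl
  set ε := min (δ / 2) 1 with hε
  have hε0 : 0 < ε := by positivity
  have hεδ : ε ≤ δ / 2 := min_le_left _ _
  obtain ⟨_, ⟨x, s, hx, hs, hK, rfl⟩, hd⟩ := hcl ε hε0
  rw [Prod.dist_eq, max_lt_iff] at hd
  obtain ⟨hd1, hd2⟩ := hd
  have hpt : ∀ u v, |target H u v - ∑ K, x K * col K u v| < ε := by
    intro u v
    have h1 := (dist_pi_lt_iff hε0).1 hd1 u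
    have h2 := (dist_pi_lt_iff hε0).1 h1 v
    simpa [Real.dist_eq] using h2
  have hsum : ∑ K, x K + s < B + ε := by
    have h1 := hd2
    simp only [Real.dist_eq] at h1
    have := (abs_lt.1 h1).1
    linarith
  have hone : 0 < 1 + ε := by positivity
  refine ⟨fun K => x K / (1 + ε), fun K => div_nonneg (hx K) hone.le, ?_, ?_, ?_, ?_⟩
  · intro K hne
    exact hK K (fun h => hne (by simp [h]))
  · intro u v huv
    have h1 := (abs_lt.1 (hpt u v)).1
    simp only [target, huv, if_true] at h1
    have e : ∑ K, x K / (1 + ε) * col K u v = (∑ K, x K * col K u v) / (1 + ε) := by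
      rw [Finset.sum_div]
      refine Finset.sum_congr rfl fun K _ => ?_
      ring
    rw [e, div_le_one hone]
    linarith
  · intro u v huv
    have h1 := (abs_lt.1 (hpt u v)).2
    simp only [target, huv, if_true] at h1
    have e : ∑ K, x K / (1 + ε) * col K u v = (∑ K, x K * col K u v) / (1 + ε) := by
      rw [Finset.sum_div]
      refine Finset.sum_congr rfl fun K _ => ?_
      ring
    rw [e, le_div_iff₀ hone]
    nlinarith
  · rw [← Finset.sum_div, div_le_iff₀ hone]
    nlinarith

end

end Pool.Agent.H29.CPR
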