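import Mathlib
import Pool.Agent.H22.F10f644.Defs
import Pool.Agent.H29.CPR.Dual

/-!
# Exact rounding

A fractional clique decomposition of a graph `H` on `Fin D` with weights in `(1/N) ℤ`, `N` coprime
to all positive integers below `D`, gives an exact clique partition of the blow-up of `H` with
parts `(ZMod N)^E`.
-/

open Finset

namespace Pool.Agent.H29.CPR

open Pool.Agent.H22.F10f644

/-- The blow-up of `H` with parts `P`. -/
def blow {V : Type} (H : SimpleGraph V) (P : Type) : SimpleGraph (V × P) where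
  Adj u v := H.Adj u.1 v.1
  symm := ⟨fun _ _ h => SimpleGraph.Adj.symm h⟩
  loopless := ⟨fun _ h => SimpleGraph.irrefl _ h⟩

/-- Colours of the clique copies on a fixed edge. -/
theorem exists_colour {V : Type} [Fintype V] [DecidableEq V] (m : Finset V → ℕ) (N : ℕ) [NeZero N]
    (i j : V) (h : ∑ K : Finset V, (if i ∈ K ∧ j ∈ K then m K else 0) = N) :
    ∃ c : (Σ K : Finset V, Fin (m K)) → ZMod N,
      ∀ z, ∃! p : (Σ K : Finset V, Fin (m K)), i ∈ p.1 ∧ j ∈ p.1 ∧ c p = z := by
  classical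
  have hcard : Fintype.card {p : (Σ K : Finset V, Fin (m K)) // i ∈ p.1 ∧ j ∈ p.1}
      = Fintype.card (ZMod N) := by
    rw [ZMod.card, Fintype.card_subtype]
    rw [← h, Finset.card_eq_sum_ones, Finset.sum_filter, Fintype.sum_sigma]
    refine Finset.sum_congr rfl fun K _ => ?_
    by_cases hh : i ∈ K ∧ j ∈ K
    · simp [hh]
    · simp [hh]
  let e := Fintype.equivOfCardEq hcard
  refine ⟨fun p => if hp : i ∈ p.1 ∧ j ∈ p.1 then e ⟨p, hp⟩ else 0, fun z => ?_⟩
  refine ⟨(e.symm z).1, ⟨(e.symm z).2.1, (e.symm z).2.2, ?_⟩, ?_⟩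
  · simp only
    rw [dif_pos (e.symm z).2]
    simp
  · rintro p ⟨h1, h2, h3⟩
    simp only at h3
    rw [dif_pos ⟨h1, h2⟩] at h3
    rw [← h3]
    simp

section

variable {D : ℕ} (N : ℕ) [NeZero N]

/-- index set of the coordinates -/
abbrev Ed (D : ℕ) := {p : Fin D × Fin D // p.1 < p.2}

/-- slope of the vertex `Q` in the coordinate `f` -/
def slope (f : Ed D) (Q : Fin D) : Fin D := if Q = f.1.2 then f.1.1 else Q

theorem slope_ne {f : Ed D} {Q Q' : Fin D} (h : Q < Q') (hf : f.1 ≠ (Q, Q')) :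
    slope f Q ≠ slope f Q' := by
  unfold slope
  have hff := f.2
  intro heq
  split_ifs at heq with h1 h2 h2
  · rw [h1, h2] at h
    exact lt_irrefl _ h
  · rw [← heq, h1] at h
    exact lt_irrefl _ (h.trans hff)
  · apply hf
    rw [h2, heq]
  · rw [heq] at h
    exact lt_irrefl _ h

theorem slope_eq {f : Ed D} : slope f f.1.1 = slope f f.1.2 := by
  unfold slope
  have hff := f.2
  rw [if_neg hff.ne, if_pos rfl]

/-- the parts -/
abbrev Part (D N : ℕ) := Ed D → ZMod N

/-- the transversal -/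
def pt (c : Ed D → ZMod N) (b j : Part D N) (Q : Fin D) : Part D N := fun f =>
  b f + j f * ((slope f Q : ℕ) : ZMod N) + if Q = f.1.1 then c f else 0

omit [NeZero N] in
theorem isUnit_sub_cast (hN : ∀ d, 0 < d → d < D → Nat.Coprime d N) {a b : Fin D} (h : a ≠ b) :
    IsUnit (((a : ℕ) : ZMod N) - ((b : ℕ) : ZMod N)) := by
  have key : ∀ a b : Fin D, a < b → IsUnit (((b : ℕ) : ZMod N) - ((a : ℕ) : ZMod N)) := by
    intro a b hab
    have hab' : (a : ℕ) < b := hab
    rw [← Nat.cast_sub hab'.le, ZMod.isUnit_iff_coprime]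
    exact hN _ (by omega) (by have := b.2; omega)
  rcases lt_or_gt_of_ne h with h | h
  · have := (key a b h).neg
    rwa [neg_sub] at this
  · exact key b a h

omit [NeZero N] in
/-- the difference in the coordinate of the pair itself -/
theorem pt_diff_self (c : Ed D → ZMod N) (b j : Part D N) (f : Ed D) :
    pt N c b j f.1.1 f - pt N c b j f.1.2 f = c f := by
  unfold pt
  rw [slope_eq]
  have : f.1.2 ≠ f.1.1 := f.2.ne'
  simp [this]

omit [NeZero N] in
theorem pt_inj (hN : ∀ d, 0 < d → d < D → Nat.Coprime d N) (c : Ed D → ZMod N)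
    (b j b' j' : Part D N)
    (hj : ∑ f, j f = 0) (hj' : ∑ f, j' f = 0) {Q Q' : Fin D} (h : Q < Q')
    (h1 : pt N c b j Q = pt N c b' j' Q) (h2 : pt N c b j Q' = pt N c b' j' Q') :
    b = b' ∧ j = j' := by
  have hne : ∀ f : Ed D, f.1 ≠ (Q, Q') → j f = j' f := by
    intro f hf
    have e1 := congrFun h1 f
    have e2 := congrFun h2 f
    unfold pt at e1 e2
    have hu := isUnit_sub_cast N hN (slope_ne h hf)
    have e3 : (j f - j' f) * (((slope f Q : ℕ) : ZMod N) - ((slope f Q' : ℕ) : ZMod N)) = 0 := by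
      linear_combination e1 - e2
    have := (hu.mul_left_eq_zero).1 e3
    exact sub_eq_zero.1 this
  have hj2 : j = j' := by
    funext f
    by_cases hf : f.1 = (Q, Q')
    · have e1 : ∑ g, (j g - j' g) = 0 := by
        rw [Finset.sum_sub_distrib, hj, hj', sub_zero]
      rw [Finset.sum_eq_single f] at e1
      · exact sub_eq_zero.1 e1
      · intro g _ hg
        rw [hne g (fun hh => hg (Subtype.ext (hh.trans hf.symm))), sub_self]
      · intro hh
        exact absurd (Finset.mem_univ f) hh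
    · exact hne f hf
  refine ⟨?_, hj2⟩
  funext f
  have e1 := congrFun h1 f
  unfold pt at e1
  rw [hj2] at e1
  linear_combination e1

omit [NeZero N] in
theorem pt_surj (hN : ∀ d, 0 < d → d < D → Nat.Coprime d N) (c : Ed D → ZMod N)
    {Q Q' : Fin D} (h : Q < Q') (x x' : Part D N)
    (hc : x ⟨(Q, Q'), h⟩ - x' ⟨(Q, Q'), h⟩ = c ⟨(Q, Q'), h⟩) :
    ∃ b j : Part D N, ∑ f, j f = 0 ∧ pt N c b j Q = x ∧ pt N c b j Q' = x' := by
  classical
  set e : Ed D := ⟨(Q, Q'), h⟩ with he
  -- slopes
  let a : Part D N := fun f => ((slope f Q : ℕ) : ZMod N) - ((slope f Q' : ℕ) : ZMod N)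
  let o : Part D N := fun f => if Q = f.1.1 then c f else 0
  let o' : Part D N := fun f => if Q' = f.1.1 then c f else 0
  have hu : ∀ f : Ed D, f ≠ e → IsUnit (a f) := by
    intro f hf
    exact isUnit_sub_cast N hN (slope_ne h (fun hh => hf (Subtype.ext hh)))
  let g : Part D N := fun f => (x f - x' f - (o f - o' f)) * (a f)⁻¹
  have hg : ∀ f, f ≠ e → g f * a f = x f - x' f - (o f - o' f) := by
    intro f hf
    simp only [g]
    rw [mul_assoc, ZMod.inv_mul_of_unit _ (hu f hf), mul_one]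
  let j : Part D N := fun f => if f = e then - ∑ f' ∈ univ.erase e, g f' else g f
  have hjs : ∑ f, j f = 0 := by
    rw [← Finset.add_sum_erase _ _ (Finset.mem_univ e)]
    have h1 : j e = - ∑ f' ∈ univ.erase e, g f' := by simp [j]
    have h2 : ∑ f ∈ univ.erase e, j f = ∑ f ∈ univ.erase e, g f := by
      refine Finset.sum_congr rfl fun f hf => ?_
      simp [j, Finset.ne_of_mem_erase hf]
    rw [h1, h2]
    ring
  let b : Part D N := fun f => x f - j f * ((slope f Q : ℕ) : ZMod N) - o f
  refine ⟨b, j, hjs, ?_, ?_⟩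
  · funext f
    simp only [pt, b, o]
    ring
  · funext f
    by_cases hf : f = e
    · subst hf
      have e1 : slope e Q = slope e Q' := slope_eq (f := e)
      have e2 : o e = c e := by simp [o, he]
      have e3 : ¬ (Q' = e.1.1) := by simp [he]; exact h.ne'
      simp only [pt, b]
      rw [e2, if_neg e3, e1, ← hc]
      ring
    · have e1 : j f = g f := by simp [j, hf]
      have e2 := hg f hf
      simp only [pt, b]
      rw [e1]
      simp only [a, o, o'] at e2 ⊢
      linear_combination (-1) * e2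

end

section

variable {D : ℕ} (H : SimpleGraph (Fin D)) (m : Finset (Fin D) → ℕ) (N : ℕ) [NeZero N]

/-- index of the cliques -/
abbrev Idx (D N : ℕ) (m : Finset (Fin D) → ℕ) :=
  (Σ K : Finset (Fin D), Fin (m K)) × Part D N × {j : Part D N // ∑ f, j f = 0}

/-- the clique of an index -/
noncomputable def clq (c : Ed D → (Σ K : Finset (Fin D), Fin (m K)) → ZMod N) (z : Idx D N m) :
    Finset (Fin D × Part D N) :=
  z.1.1.image fun Q => (Q, pt N (fun f => c f z.1) z.2.1 z.2.2.1 Q)

omit [NeZero N] in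
theorem mem_clq {c : Ed D → (Σ K : Finset (Fin D), Fin (m K)) → ZMod N} {z : Idx D N m}
    {u : Fin D × Part D N} :
    u ∈ clq m N c z ↔ u.1 ∈ z.1.1 ∧ u.2 = pt N (fun f => c f z.1) z.2.1 z.2.2.1 u.1 := by
  unfold clq
  rw [Finset.mem_image]
  constructor
  · rintro ⟨Q, hQ, rfl⟩
    exact ⟨hQ, rfl⟩
  · rintro ⟨h1, h2⟩
    exact ⟨u.1, h1, Prod.ext rfl h2.symm⟩

theorem card_ker (hE : Nonempty (Ed D)) :
    Fintype.card {j : Part D N // ∑ f, j f = 0} * N ≤ Fintype.card (Part D N) := by
  classical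
  obtain ⟨f0⟩ := hE
  have : Fintype.card ({j : Part D N // ∑ f, j f = 0} × ZMod N) ≤ Fintype.card (Part D N) := by
    refine Fintype.card_le_of_injective
      (fun p => fun f => p.1.1 f + if f = f0 then p.2 else 0) ?_
    rintro ⟨j, a⟩ ⟨j', a'⟩ heq
    have hs : ∀ (j : Part D N) (a : ZMod N), ∑ f, j f = 0 →
        ∑ f, (j f + if f = f0 then a else 0) = a := by
      intro j a hj
      rw [Finset.sum_add_distrib, hj, zero_add]
      simp
    have h1 := hs j.1 a j.2
    have h2 := hs j'.1 a' j'.2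
    simp only at heq
    have h3 : a = a' := by
      rw [← h1, ← h2]
      exact Finset.sum_congr rfl fun f _ => congrFun heq f
    subst h3
    have h4 : j = j' := by
      apply Subtype.ext
      funext f
      have := congrFun heq f
      simpa using this
    rw [h4]
  rwa [Fintype.card_prod, ZMod.card] at this

/-- **Exact rounding.** -/
theorem exists_partition_blow (hN : ∀ d, 0 < d → d < D → Nat.Coprime d N)
    (hcl : ∀ K, m K ≠ 0 → IsCl H K ∧ 2 ≤ K.card)
    (hsum : ∀ i j, H.Adj i j → ∑ K : Finset (Fin D), (if i ∈ K ∧ j ∈ K then m K else 0) = N) :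
    ∃ F : Finset (Finset (Fin D × Part D N)), IsCliquePartition (blow H (Part D N)) F ∧
      F.card * N ≤ (∑ K, m K) * (Fintype.card (Part D N)) ^ 2 := by
  classical
  -- colours
  have hcol : ∀ f : Ed D, ∃ c : (Σ K : Finset (Fin D), Fin (m K)) → ZMod N,
      H.Adj f.1.1 f.1.2 →
      ∀ z, ∃! p : (Σ K : Finset (Fin D), Fin (m K)), f.1.1 ∈ p.1 ∧ f.1.2 ∈ p.1 ∧ c p = z := by
    intro f
    by_cases hf : H.Adj f.1.1 f.1.2
    · obtain ⟨c, hc⟩ := exists_colour m N f.1.1 f.1.2 (hsum _ _ hf)
      exact ⟨c, fun _ => hc⟩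
    · exact ⟨fun _ => 0, fun h => absurd h hf⟩
  choose c hc using hcol
  refine ⟨Finset.univ.image (clq m N c), ⟨?_, ?_⟩, ?_⟩
  · intro S hS
    rw [Finset.mem_image] at hS
    obtain ⟨z, _, rfl⟩ := hS
    have hm : m z.1.1 ≠ 0 := by
      intro h0
      have := z.1.2.2
      omega
    obtain ⟨h1, h2⟩ := hcl _ hm
    constructor
    · unfold clq
      rw [Finset.card_image_of_injective]
      · exact h2
      · intro a b hab
        exact congrArg Prod.fst hab
    · intro u hu v hv huv
      rw [mem_clq] at hu hv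
      refine h1 _ hu.1 _ hv.1 ?_
      intro h
      apply huv
      refine Prod.ext h ?_
      rw [hu.2, hv.2, h]
  · -- unique cover
    have key : ∀ u v : Fin D × Part D N, u.1 < v.1 → H.Adj u.1 v.1 →
        ∃! S, S ∈ Finset.univ.image (clq m N c) ∧ u ∈ S ∧ v ∈ S := by
      rintro ⟨Q, x⟩ ⟨Q', x'⟩ hlt hadj
      simp only at hlt hadj
      obtain ⟨p, ⟨hp1, hp2, hp3⟩, hpu⟩ := hc ⟨(Q, Q'), hlt⟩ hadj
        (x ⟨(Q, Q'), hlt⟩ - x' ⟨(Q, Q'), hlt⟩)
      obtain ⟨b, j, hj, hx, hx'⟩ := pt_surj N hN (fun f => c f p) hlt x x' hp3.symm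
      refine ⟨clq m N c (p, b, ⟨j, hj⟩), ⟨Finset.mem_image_of_mem _ (Finset.mem_univ _), ?_, ?_⟩, ?_⟩
      · rw [mem_clq]
        exact ⟨hp1, hx.symm⟩
      · rw [mem_clq]
        exact ⟨hp2, hx'.symm⟩
      · rintro S ⟨hS, huS, hvS⟩
        rw [Finset.mem_image] at hS
        obtain ⟨⟨p', b', j', hj'⟩, _, rfl⟩ := hS
        rw [mem_clq] at huS hvS
        obtain ⟨hQ, hxQ⟩ := huS
        obtain ⟨hQ', hxQ'⟩ := hvS
        simp only at hQ hxQ hQ' hxQ'
        have hpp : p' = p := by
          apply hpu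
          refine ⟨hQ, hQ', ?_⟩
          rw [hxQ, hxQ']
          exact (pt_diff_self N (fun f => c f p') b' j' ⟨(Q, Q'), hlt⟩).symm
        subst hpp
        obtain ⟨hb, hjj⟩ := pt_inj N hN (fun f => c f p') b j b' j' hj hj' hlt
          (by rw [hx, hxQ]) (by rw [hx', hxQ'])
        subst hb
        subst hjj
        rfl
    intro u v huv
    have huv' : H.Adj u.1 v.1 := huv
    rcases lt_or_gt_of_ne huv'.ne with h | h
    · exact key u v h huv'
    · obtain ⟨S, ⟨h1, h2, h3⟩, h4⟩ := key v u h huv'.symm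
      exact ⟨S, ⟨h1, h3, h2⟩, fun S' ⟨a, b, c⟩ => h4 S' ⟨a, c, b⟩⟩
  · -- counting
    by_cases h0 : ∑ K, m K = 0
    · have hempty : IsEmpty (Σ K : Finset (Fin D), Fin (m K)) := by
        refine ⟨fun p => ?_⟩
        have h1 : m p.1 = 0 := by
          have := Finset.sum_eq_zero_iff.1 h0 p.1 (Finset.mem_univ _)
          exact this
        have := p.2.2
        omega
      have hz : (Finset.univ.image (clq m N c)).card = 0 := by
        rw [Finset.card_eq_zero, Finset.image_eq_empty]
        apply Finset.univ_eq_empty_iff.2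
        exact Prod.isEmpty_left
      rw [hz]
      simp
    · have hE : Nonempty (Ed D) := by
        obtain ⟨K, -, hK⟩ := Finset.exists_ne_zero_of_sum_ne_zero h0
        obtain ⟨h1, h2⟩ := hcl K hK
        obtain ⟨a, ha, b, hb, hab⟩ := Finset.one_lt_card.1 h2
        rcases lt_or_gt_of_ne hab with h | h
        · exact ⟨⟨(a, b), h⟩⟩
        · exact ⟨⟨(b, a), h⟩⟩
      have h1 : (Finset.univ.image (clq m N c)).card ≤ (∑ K, m K) *
          (Fintype.card (Part D N) * Fintype.card {j : Part D N // ∑ f, j f = 0}) := by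
        refine Finset.card_image_le.trans ?_
        rw [Finset.card_univ, Fintype.card_prod, Fintype.card_prod, Fintype.card_sigma]
        simp
      calc (Finset.univ.image (clq m N c)).card * N
          ≤ (∑ K, m K) * (Fintype.card (Part D N) *
            Fintype.card {j : Part D N // ∑ f, j f = 0}) * N := Nat.mul_le_mul_right _ h1
        _ = (∑ K, m K) * (Fintype.card (Part D N) *
            (Fintype.card {j : Part D N // ∑ f, j f = 0} * N)) := by ring
        _ ≤ (∑ K, m K) * (Fintype.card (Part D N) * Fintype.card (Part D N)) :=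
            Nat.mul_le_mul_left _ (Nat.mul_le_mul_left _ (card_ker N hE))
        _ = (∑ K, m K) * (Fintype.card (Part D N)) ^ 2 := by ring

end

end Pool.Agent.H29.CPR
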