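import Mathlib
import Pool.Agent.H29.CPR.Round

/-!
# From a dual bound to an exact clique partition of a blow-up
-/

open Finset

namespace Pool.Agent.H29.CPR

open Pool.Agent.H22.F10f644

variable {D : ℕ} (H : SimpleGraph (Fin D))

theorem exists_mult (B : ℝ) [DecidableRel H.Adj]
    (hB : ∀ y : Fin D → Fin D → ℝ, (∀ K, IsCl H K → pw y K ≤ 2) → tot H y ≤ 2 * B)
    (ε : ℝ) (hε : 0 < ε) :
    ∃ N0 : ℕ, ∀ N : ℕ, N0 ≤ N → ∃ m : Finset (Fin D) → ℕ,
      (∀ K, m K ≠ 0 → IsCl H K ∧ 2 ≤ K.card) ∧
      (∀ i j, H.Adj i j → ∑ K : Finset (Fin D), (if i ∈ K ∧ j ∈ K then m K else 0) = N) ∧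
      ((∑ K, m K : ℕ) : ℝ) ≤ (B + ε) * N := by
  classical
  set δ : ℝ := ε / (2 * (1 + 2 ^ D)) with hδ
  have hδ0 : 0 < δ := by positivity
  obtain ⟨x, hx0, hxK, hx1, hx2, hx3⟩ := exists_fractional H B hB δ hδ0
  obtain ⟨N0, hN0⟩ := exists_nat_ge (4 ^ D * (2 / ε))
  refine ⟨N0, fun N hN => ?_⟩
  have hN' : (4 : ℝ) ^ D ≤ N * (ε / 2) := by
    have h1 : (4 : ℝ) ^ D * (2 / ε) ≤ N := hN0.trans (by exact_mod_cast hN)
    have h2 : (4 : ℝ) ^ D = 4 ^ D * (2 / ε) * (ε / 2) := by
      field_simp
    rw [h2]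
    exact mul_le_mul_of_nonneg_right h1 (by positivity)
  let fl : Finset (Fin D) → ℕ := fun K => ⌊(N : ℝ) * x K⌋₊
  have hfl1 : ∀ K, (fl K : ℝ) ≤ N * x K := by
    intro K
    exact Nat.floor_le (mul_nonneg (Nat.cast_nonneg _) (hx0 K))
  have hfl2 : ∀ K, (N : ℝ) * x K ≤ fl K + 1 := by
    intro K
    exact (Nat.lt_floor_add_one _).le
  let m : Finset (Fin D) → ℕ := fun K =>
    if IsCl H K ∧ K.card = 2 then N - ∑ K' ∈ univ.filter (fun K' => K ⊂ K'), fl K'
    else if 3 ≤ K.card then fl K else 0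
  -- coverage of an edge
  have hcov : ∀ i j, H.Adj i j →
      ∑ K, x K * col K i j = x {i, j} + ∑ K' ∈ univ.filter (fun K' => {i, j} ⊂ K'), x K' := by
    intro i j hij
    have hne : i ≠ j := hij.ne
    have h1 : ∀ K : Finset (Fin D), x K * col K i j = if {i, j} ⊆ K then x K else 0 := by
      intro K
      unfold col
      by_cases h : {i, j} ⊆ K
      · have : i ∈ K ∧ j ∈ K ∧ i ≠ j := ⟨h (by simp), h (by simp), hne⟩
        simp [h, this]
      · have : ¬ (i ∈ K ∧ j ∈ K ∧ i ≠ j) := by
          rintro ⟨ha, hb, -⟩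
          apply h
          intro z hz
          simp only [Finset.mem_insert, Finset.mem_singleton] at hz
          rcases hz with rfl | rfl <;> assumption
        simp [h, this]
    rw [Finset.sum_congr rfl fun K _ => h1 K, ← Finset.sum_filter]
    have h2 : (univ.filter fun K : Finset (Fin D) => {i, j} ⊆ K)
        = insert {i, j} (univ.filter fun K' : Finset (Fin D) => {i, j} ⊂ K') := by
      ext K
      simp only [Finset.mem_filter, Finset.mem_univ, true_and, Finset.mem_insert]
      constructor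
      · intro h
        rcases h.eq_or_ssubset with h | h
        · left; exact h.symm
        · right; exact h
      · rintro (h | h)
        · rw [h]
        · exact h.subset
    rw [h2, Finset.sum_insert]
    simp
  have hle : ∀ i j, H.Adj i j →
      ∑ K' ∈ univ.filter (fun K' => {i, j} ⊂ K'), fl K' ≤ N := by
    intro i j hij
    have h1 := hx1 i j hij
    rw [hcov i j hij] at h1
    have h2 : ((∑ K' ∈ univ.filter (fun K' => {i, j} ⊂ K'), fl K' : ℕ) : ℝ)
        ≤ N * ∑ K' ∈ univ.filter (fun K' => {i, j} ⊂ K'), x K' := by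
      push_cast
      rw [Finset.mul_sum]
      exact Finset.sum_le_sum fun K _ => hfl1 K
    have h3 : ((∑ K' ∈ univ.filter (fun K' => {i, j} ⊂ K'), fl K' : ℕ) : ℝ) ≤ N := by
      refine h2.trans ?_
      have : ∑ K' ∈ univ.filter (fun K' => {i, j} ⊂ K'), x K' ≤ 1 := by
        have := hx0 {i, j}
        linarith
      calc (N : ℝ) * ∑ K' ∈ univ.filter (fun K' => {i, j} ⊂ K'), x K' ≤ N * 1 :=
            mul_le_mul_of_nonneg_left this (Nat.cast_nonneg _)
        _ = N := mul_one _
    exact_mod_cast h3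
  have hpair : ∀ i j, H.Adj i j → IsCl H {i, j} ∧ ({i, j} : Finset (Fin D)).card = 2 := by
    intro i j hij
    refine ⟨?_, Finset.card_pair hij.ne⟩
    intro u hu v hv huv
    simp only [Finset.mem_insert, Finset.mem_singleton] at hu hv
    rcases hu with rfl | rfl <;> rcases hv with rfl | rfl
    · exact absurd rfl huv
    · exact hij
    · exact hij.symm
    · exact absurd rfl huv
  refine ⟨m, ?_, ?_, ?_⟩
  · intro K hK
    simp only [m] at hK
    split_ifs at hK with h1 h2
    · exact ⟨h1.1, by omega⟩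
    · refine ⟨?_, by omega⟩
      apply (hxK K _).1
      intro h0
      apply hK
      simp [fl, h0]
    · exact absurd rfl hK
  · intro i j hij
    obtain ⟨hp1, hp2⟩ := hpair i j hij
    have h1 : ∀ K : Finset (Fin D), (if i ∈ K ∧ j ∈ K then m K else 0)
        = if {i, j} ⊆ K then m K else 0 := by
      intro K
      by_cases h : {i, j} ⊆ K
      · have : i ∈ K ∧ j ∈ K := ⟨h (by simp), h (by simp)⟩
        simp [h, this]
      · have : ¬ (i ∈ K ∧ j ∈ K) := by
          rintro ⟨ha, hb⟩
          apply h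
          intro z hz
          simp only [Finset.mem_insert, Finset.mem_singleton] at hz
          rcases hz with rfl | rfl <;> assumption
        simp [h, this]
    rw [Finset.sum_congr rfl fun K _ => h1 K, ← Finset.sum_filter]
    have h2 : (univ.filter fun K : Finset (Fin D) => {i, j} ⊆ K)
        = insert {i, j} (univ.filter fun K' : Finset (Fin D) => {i, j} ⊂ K') := by
      ext K
      simp only [Finset.mem_filter, Finset.mem_univ, true_and, Finset.mem_insert]
      constructor
      · intro h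
        rcases h.eq_or_ssubset with h | h
        · left; exact h.symm
        · right; exact h
      · rintro (h | h)
        · rw [h]
        · exact h.subset
    rw [h2, Finset.sum_insert (by simp)]
    have h3 : m {i, j} = N - ∑ K' ∈ univ.filter (fun K' => {i, j} ⊂ K'), fl K' := by
      simp only [m]
      rw [if_pos ⟨hp1, hp2⟩]
    have h4 : ∑ K' ∈ univ.filter (fun K' => {i, j} ⊂ K'), m K'
        = ∑ K' ∈ univ.filter (fun K' => {i, j} ⊂ K'), fl K' := by
      refine Finset.sum_congr rfl fun K' hK' => ?_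
      rw [Finset.mem_filter] at hK'
      have h5 := Finset.card_lt_card hK'.2
      rw [hp2] at h5
      simp only [m]
      rw [if_neg (by intro h; omega), if_pos (by omega)]
    rw [h3, h4]
    exact Nat.sub_add_cancel (hle i j hij)
  · -- total
    have hm : ∀ K, (m K : ℝ) ≤ N * x K + (N * δ + 2 ^ D) := by
      intro K
      have hpos : (0 : ℝ) ≤ N * δ + 2 ^ D := by positivity
      simp only [m]
      split_ifs with h1 h2
      · obtain ⟨i, j, hne, hK⟩ := Finset.card_eq_two.1 h1.2
        subst hK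
        have hij : H.Adj i j := h1.1 i (by simp) j (by simp) hne
        rw [Nat.cast_sub (hle i j hij)]
        have h3 := hx2 i j hij
        rw [hcov i j hij] at h3
        have h4 : (N : ℝ) * ∑ K' ∈ univ.filter (fun K' => {i, j} ⊂ K'), x K'
            ≤ ((∑ K' ∈ univ.filter (fun K' => {i, j} ⊂ K'), fl K' : ℕ) : ℝ) + 2 ^ D := by
          push_cast
          rw [Finset.mul_sum]
          have h5 : ∑ K' ∈ univ.filter (fun K' : Finset (Fin D) => {i, j} ⊂ K'), (N : ℝ) * x K'
              ≤ ∑ K' ∈ univ.filter (fun K' => {i, j} ⊂ K'), ((fl K' : ℝ) + 1) :=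
            Finset.sum_le_sum fun K _ => hfl2 K
          rw [Finset.sum_add_distrib, Finset.sum_const, nsmul_eq_mul, mul_one] at h5
          have h6 : ((univ.filter (fun K' : Finset (Fin D) => {i, j} ⊂ K')).card : ℝ) ≤ 2 ^ D := by
            have := Finset.card_filter_le (univ : Finset (Finset (Fin D)))
              (fun K' : Finset (Fin D) => {i, j} ⊂ K')
            rw [Finset.card_univ, Fintype.card_finset, Fintype.card_fin] at this
            exact_mod_cast this
          linarith
        have h7 : (N : ℝ) * (1 - δ) ≤ N * (x {i, j} +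
            ∑ K' ∈ univ.filter (fun K' => {i, j} ⊂ K'), x K') :=
          mul_le_mul_of_nonneg_left h3 (Nat.cast_nonneg _)
        rw [mul_add] at h7
        nlinarith
      · have := hfl1 K
        linarith
      · have : 0 ≤ (N : ℝ) * x K := mul_nonneg (Nat.cast_nonneg _) (hx0 K)
        push_cast
        linarith
    push_cast
    have h8 : ∑ K, (m K : ℝ) ≤ ∑ K, ((N : ℝ) * x K + (N * δ + 2 ^ D)) :=
      Finset.sum_le_sum fun K _ => hm K
    rw [Finset.sum_add_distrib, ← Finset.mul_sum, Finset.sum_const, Finset.card_univ,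
      Fintype.card_finset, Fintype.card_fin, nsmul_eq_mul] at h8
    push_cast at h8
    have h9 : (N : ℝ) * ∑ K, x K ≤ N * (B + δ) :=
      mul_le_mul_of_nonneg_left hx3 (Nat.cast_nonneg _)
    have h10 : (N : ℝ) * δ + 2 ^ D * (N * δ) = N * (ε / 2) := by
      rw [hδ]
      field_simp
    have h11 : (2 : ℝ) ^ D * 2 ^ D = 4 ^ D := by
      rw [← mul_pow]
      norm_num
    nlinarith

/-- **From a dual bound to an exact clique partition of a blow-up.** -/
theorem exists_blow_partition (B : ℝ) [DecidableRel H.Adj]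
    (hB : ∀ y : Fin D → Fin D → ℝ, (∀ K, IsCl H K → pw y K ≤ 2) → tot H y ≤ 2 * B)
    (ε : ℝ) (hε : 0 < ε) :
    ∃ N0 : ℕ, ∀ (N : ℕ) [NeZero N], N0 ≤ N → (∀ d, 0 < d → d < D → Nat.Coprime d N) →
      ∃ F : Finset (Finset (Fin D × Part D N)), IsCliquePartition (blow H (Part D N)) F ∧
        (F.card : ℝ) ≤ (B + ε) * (Fintype.card (Part D N) : ℝ) ^ 2 := by
  obtain ⟨N0, hN0⟩ := exists_mult H B hB ε hε
  refine ⟨N0, fun N _ hN hcop => ?_⟩
  obtain ⟨m, h1, h2, h3⟩ := hN0 N hN
  obtain ⟨F, hF, hc⟩ := exists_partition_blow H m N hcop h1 h2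
  refine ⟨F, hF, ?_⟩
  have hNpos : (0 : ℝ) < N := by exact_mod_cast Nat.pos_of_ne_zero (NeZero.ne N)
  have hc' : (F.card : ℝ) * N ≤ ((∑ K, m K : ℕ) : ℝ) * (Fintype.card (Part D N) : ℝ) ^ 2 := by
    exact_mod_cast hc
  have h4 : ((∑ K, m K : ℕ) : ℝ) * (Fintype.card (Part D N) : ℝ) ^ 2
      ≤ (B + ε) * N * (Fintype.card (Part D N) : ℝ) ^ 2 :=
    mul_le_mul_of_nonneg_right h3 (by positivity)
  have h5 : (F.card : ℝ) * N ≤ ((B + ε) * (Fintype.card (Part D N) : ℝ) ^ 2) * N := by
    calc (F.card : ℝ) * N ≤ _ := hc'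
      _ ≤ _ := h4
      _ = _ := by ring
  exact le_of_mul_le_mul_right h5 hNpos

end Pool.Agent.H29.CPR
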