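import Mathlib
import Pool.Agent.H29.CPR.Mult

/-!
# From type graphs on `Fin D` to arbitrary graphs with a clique cover of bounded size
-/

open Finset

namespace Pool.Agent.H29.CPR

open Pool.Agent.H22.F10f644

/-- The graph of a set system: distinct vertices are adjacent iff their types meet. -/
def tg {V : Type} {k : ℕ} (T : V → Finset (Fin k)) : SimpleGraph V where
  Adj u v := u ≠ v ∧ (T u ∩ T v).Nonempty
  symm := ⟨fun _ _ h => ⟨h.1.symm, by rw [Finset.inter_comm]; exact h.2⟩⟩
  loopless := ⟨fun _ h => h.1 rfl⟩

instance {V : Type} [DecidableEq V] {k : ℕ} (T : V → Finset (Fin k)) :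
    DecidableRel (tg T).Adj := fun u v => inferInstanceAs (Decidable (u ≠ v ∧ (T u ∩ T v).Nonempty))

/-- Dual bound for the graphs covered by `k` cliques. -/
def DualBound (k : ℕ) (V C : ℝ) : Prop :=
  ∀ (D : ℕ) (T : Fin D → Finset (Fin k)) (y : Fin D → Fin D → ℝ),
    (∀ K, IsCl (tg T) K → pw y K ≤ 2) → tot (tg T) y ≤ 2 * (V * (D : ℝ) ^ 2 + C * D)

section glue

variable {n D k : ℕ} {P : Type} [Fintype P] [DecidableEq P]

/-- the gluing of partitions -/
theorem glue (S : Fin n → Finset (Fin k)) (T : Fin D → Finset (Fin k))
    (g : Fin n → Option (Fin D × P))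
    (h1 : ∀ v w z, g v = some z → g w = some z → v = w)
    (h2 : ∀ v z, g v = some z → S v = T z.1)
    (h3 : ∀ h, (T h).Nonempty → ∀ p, ∃ v, g v = some (h, p))
    (F : Finset (Finset (Fin D × P))) (hF : IsCliquePartition (blow (tg T) P) F) :
    cp (tg S) ≤ F.card + D + (univ.filter fun v => g v = none).card * n := by
  classical
  let st : Finset (Fin D × P) → Finset (Fin n) := fun K =>
    univ.filter fun v => ∃ z ∈ K, g v = some z
  let gr : Fin D → Finset (Fin n) := fun h => univ.filter fun v => ∃ p, g v = some (h, p)
  let pr : Fin n × Fin n → Finset (Fin n) := fun z => {z.1, z.2}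
  have mst : ∀ K v, v ∈ st K ↔ ∃ z ∈ K, g v = some z := by
    intro K v; simp [st]
  have mgr : ∀ h v, v ∈ gr h ↔ ∃ p, g v = some (h, p) := by
    intro K v; simp [gr]
  let A : Finset (Finset (Fin n)) := F.image st
  let B : Finset (Finset (Fin n)) :=
    (univ.filter fun h : Fin D => (T h).Nonempty ∧ 2 ≤ (gr h).card).image gr
  let E : Finset (Finset (Fin n)) :=
    (((univ.filter fun v => g v = none) ×ˢ univ).filter
      fun z : Fin n × Fin n => (tg S).Adj z.1 z.2).image pr
  have hpart : IsCliquePartition (tg S) (A ∪ B ∪ E) := by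
    constructor
    · intro K hK
      rw [Finset.mem_union, Finset.mem_union] at hK
      rcases hK with (hK | hK) | hK
      · obtain ⟨K, hKF, rfl⟩ := Finset.mem_image.1 hK
        obtain ⟨hc, ha⟩ := hF.1 K hKF
        constructor
        · obtain ⟨a, ha', b, hb', hab⟩ := Finset.one_lt_card.1 hc
          have hadj := ha a ha' b hb' hab
          have hadj' : (tg T).Adj a.1 b.1 := hadj
          have hTa : (T a.1).Nonempty := hadj'.2.mono Finset.inter_subset_left
          have hTb : (T b.1).Nonempty := hadj'.2.mono Finset.inter_subset_right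
          obtain ⟨v, hv⟩ := h3 a.1 hTa a.2
          obtain ⟨w, hw⟩ := h3 b.1 hTb b.2
          apply Finset.one_lt_card.2
          refine ⟨v, (mst _ _).2 ⟨a, ha', hv⟩, w, (mst _ _).2 ⟨b, hb', hw⟩, ?_⟩
          intro hvw
          rw [hvw, hw] at hv
          exact hab (Option.some.inj hv).symm
        · intro u hu v hv huv
          obtain ⟨z, hz, hgu⟩ := (mst _ _).1 hu
          obtain ⟨z', hz', hgv⟩ := (mst _ _).1 hv
          have hne : z ≠ z' := by
            rintro rfl
            exact huv (h1 _ _ _ hgu hgv)
          have hadj' : (tg T).Adj z.1 z'.1 := ha z hz z' hz' hne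
          refine ⟨huv, ?_⟩
          rw [h2 _ _ hgu, h2 _ _ hgv]
          exact hadj'.2
      · obtain ⟨h, hh, rfl⟩ := Finset.mem_image.1 hK
        rw [Finset.mem_filter] at hh
        refine ⟨hh.2.2, ?_⟩
        intro u hu v hv huv
        obtain ⟨p, hp⟩ := (mgr _ _).1 hu
        obtain ⟨q, hq⟩ := (mgr _ _).1 hv
        refine ⟨huv, ?_⟩
        rw [h2 _ _ hp, h2 _ _ hq, Finset.inter_self]
        exact hh.2.1
      · obtain ⟨z, hz, rfl⟩ := Finset.mem_image.1 hK
        rw [Finset.mem_filter] at hz
        have hadj := hz.2
        refine ⟨?_, ?_⟩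
        · simp only [pr]
          rw [Finset.card_pair hadj.1]
        · intro u hu v hv huv
          simp only [pr, Finset.mem_insert, Finset.mem_singleton] at hu hv
          rcases hu with rfl | rfl <;> rcases hv with rfl | rfl
          · exact absurd rfl huv
          · exact hadj
          · exact hadj.symm
          · exact absurd rfl huv
    · intro u v huv
      by_cases hnone : g u = none ∨ g v = none
      · refine ⟨{u, v}, ⟨?_, by simp, by simp⟩, ?_⟩
        · rw [Finset.mem_union]
          right
          rcases hnone with hn | hn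
          · refine Finset.mem_image.2 ⟨(u, v), ?_, rfl⟩
            simp [hn, huv]
          · refine Finset.mem_image.2 ⟨(v, u), ?_, ?_⟩
            · simp [hn, huv.symm]
            · simp only [pr]
              rw [Finset.pair_comm]
        · rintro K ⟨hK, huK, hvK⟩
          rw [Finset.mem_union, Finset.mem_union] at hK
          rcases hK with (hK | hK) | hK
          · obtain ⟨K, hKF, rfl⟩ := Finset.mem_image.1 hK
            obtain ⟨z, _, hgu⟩ := (mst _ _).1 huK
            obtain ⟨z', _, hgv⟩ := (mst _ _).1 hvK
            rcases hnone with hn | hn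
            · rw [hn] at hgu; exact absurd hgu (by simp)
            · rw [hn] at hgv; exact absurd hgv (by simp)
          · obtain ⟨h, hh, rfl⟩ := Finset.mem_image.1 hK
            obtain ⟨p, hgu⟩ := (mgr _ _).1 huK
            obtain ⟨q, hgv⟩ := (mgr _ _).1 hvK
            rcases hnone with hn | hn
            · rw [hn] at hgu; exact absurd hgu (by simp)
            · rw [hn] at hgv; exact absurd hgv (by simp)
          · obtain ⟨z, hz, rfl⟩ := Finset.mem_image.1 hK
            simp only [pr, Finset.mem_insert, Finset.mem_singleton] at huK hvK ⊢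
            rcases huK with rfl | rfl <;> rcases hvK with rfl | rfl
            · exact absurd rfl huv.1
            · rfl
            · exact Finset.pair_comm _ _
            · exact absurd rfl huv.1
      · push Not at hnone
        obtain ⟨hnu, hnv⟩ := hnone
        obtain ⟨⟨a, p⟩, hgu⟩ := Option.ne_none_iff_exists'.1 hnu
        obtain ⟨⟨b, q⟩, hgv⟩ := Option.ne_none_iff_exists'.1 hnv
        have hSu := h2 _ _ hgu
        have hSv := h2 _ _ hgv
        simp only at hSu hSv
        have hinter := huv.2
        rw [hSu, hSv] at hinter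
        by_cases hab : a = b
        · subst hab
          have hTa : (T a).Nonempty := hinter.mono Finset.inter_subset_left
          have hmu : u ∈ gr a := (mgr _ _).2 ⟨p, hgu⟩
          have hmv : v ∈ gr a := (mgr _ _).2 ⟨q, hgv⟩
          refine ⟨gr a, ⟨?_, hmu, hmv⟩, ?_⟩
          · rw [Finset.mem_union, Finset.mem_union]
            left; right
            refine Finset.mem_image.2 ⟨a, ?_, rfl⟩
            rw [Finset.mem_filter]
            exact ⟨Finset.mem_univ _, hTa, Finset.one_lt_card.2 ⟨u, hmu, v, hmv, huv.1⟩⟩
          · rintro K ⟨hK, huK, hvK⟩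
            rw [Finset.mem_union, Finset.mem_union] at hK
            rcases hK with (hK | hK) | hK
            · obtain ⟨K, hKF, rfl⟩ := Finset.mem_image.1 hK
              obtain ⟨z, hz, hgu'⟩ := (mst _ _).1 huK
              obtain ⟨z', hz', hgv'⟩ := (mst _ _).1 hvK
              rw [hgu] at hgu'
              rw [hgv] at hgv'
              have e1 := Option.some.inj hgu'
              have e2 := Option.some.inj hgv'
              have hne : z ≠ z' := by
                rintro rfl
                rw [← e2] at e1
                rw [e1] at hgu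
                exact huv.1 (h1 _ _ _ hgu hgv)
              have hadj : (tg T).Adj z.1 z'.1 := (hF.1 K hKF).2 z hz z' hz' hne
              rw [← e1, ← e2] at hadj
              exact absurd rfl hadj.1
            · obtain ⟨h, hh, rfl⟩ := Finset.mem_image.1 hK
              obtain ⟨p', hgu'⟩ := (mgr _ _).1 huK
              rw [hgu] at hgu'
              have := congrArg Prod.fst (Option.some.inj hgu')
              simp only at this
              rw [this]
            · obtain ⟨z, hz, rfl⟩ := Finset.mem_image.1 hK
              simp only [Finset.mem_filter, Finset.mem_product, Finset.mem_univ, true_and,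
                and_true] at hz
              simp only [pr, Finset.mem_insert, Finset.mem_singleton] at huK hvK
              rcases huK with h | h
              · rw [← h, hgu] at hz; exact absurd hz.1 (by simp)
              · rcases hvK with h' | h'
                · rw [← h', hgv] at hz; exact absurd hz.1 (by simp)
                · exact absurd (h.trans h'.symm) huv.1
        · have hadj : (blow (tg T) P).Adj (a, p) (b, q) := by
            show (tg T).Adj a b
            exact ⟨hab, hinter⟩
          obtain ⟨K, ⟨hKF, haK, hbK⟩, hKu⟩ := hF.2 _ _ hadj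
          refine ⟨st K, ⟨?_, (mst _ _).2 ⟨_, haK, hgu⟩, (mst _ _).2 ⟨_, hbK, hgv⟩⟩, ?_⟩
          · rw [Finset.mem_union, Finset.mem_union]
            left; left
            exact Finset.mem_image_of_mem _ hKF
          · rintro K' ⟨hK, huK, hvK⟩
            rw [Finset.mem_union, Finset.mem_union] at hK
            rcases hK with (hK | hK) | hK
            · obtain ⟨K', hKF', rfl⟩ := Finset.mem_image.1 hK
              obtain ⟨z, hz, hgu'⟩ := (mst _ _).1 huK
              obtain ⟨z', hz', hgv'⟩ := (mst _ _).1 hvK
              rw [hgu] at hgu'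
              rw [hgv] at hgv'
              have e1 := Option.some.inj hgu'
              have e2 := Option.some.inj hgv'
              subst e1
              subst e2
              rw [hKu K' ⟨hKF', hz, hz'⟩]
            · obtain ⟨h, hh, rfl⟩ := Finset.mem_image.1 hK
              obtain ⟨p', hgu'⟩ := (mgr _ _).1 huK
              obtain ⟨q', hgv'⟩ := (mgr _ _).1 hvK
              rw [hgu] at hgu'
              rw [hgv] at hgv'
              have e1 := congrArg Prod.fst (Option.some.inj hgu')
              have e2 := congrArg Prod.fst (Option.some.inj hgv')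
              simp only at e1 e2
              exact absurd (e1.trans e2.symm) hab
            · obtain ⟨z, hz, rfl⟩ := Finset.mem_image.1 hK
              simp only [Finset.mem_filter, Finset.mem_product, Finset.mem_univ, true_and,
                and_true] at hz
              simp only [pr, Finset.mem_insert, Finset.mem_singleton] at huK hvK
              rcases huK with h | h
              · rw [← h, hgu] at hz; exact absurd hz.1 (by simp)
              · rcases hvK with h' | h'
                · rw [← h', hgv] at hz; exact absurd hz.1 (by simp)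
                · exact absurd (h.trans h'.symm) huv.1
  have hcp : cp (tg S) ≤ (A ∪ B ∪ E).card := Nat.sInf_le ⟨_, hpart, rfl⟩
  refine hcp.trans ((Finset.card_union_le _ _).trans ?_)
  refine Nat.add_le_add ((Finset.card_union_le _ _).trans ?_) ?_
  · refine Nat.add_le_add Finset.card_image_le ?_
    refine Finset.card_image_le.trans ?_
    refine (Finset.card_filter_le _ _).trans ?_
    simp
  · refine Finset.card_image_le.trans ?_
    refine (Finset.card_filter_le _ _).trans ?_
    rw [Finset.card_product]
    simp

end glue

section grouping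

variable {n k : ℕ}

theorem exists_grouping (S : Fin n → Finset (Fin k)) (D s : ℕ) (hs : 0 < s) (P : Type) [Fintype P]
    (hP : Fintype.card P = s) (hn : n ≤ D * s) :
    ∃ (T : Fin D → Finset (Fin k)) (g : Fin n → Option (Fin D × P)),
      (∀ v w z, g v = some z → g w = some z → v = w) ∧
      (∀ v z, g v = some z → S v = T z.1) ∧
      (∀ h, (T h).Nonempty → ∀ p, ∃ v, g v = some (h, p)) ∧
      (univ.filter fun v => g v = none).card ≤ 2 ^ k * s := by
  classical
  let cl : Finset (Fin k) → ℕ := fun A => Fintype.card {v // S v = A}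
  let q : Finset (Fin k) → ℕ := fun A => cl A / s
  have hcl : ∑ A, cl A = n := by
    have : ∑ A, cl A = Fintype.card (Σ A, {v // S v = A}) := by
      rw [Fintype.card_sigma]
    rw [this, Fintype.card_congr (Equiv.sigmaFiberEquiv S), Fintype.card_fin]
  have hqs : ∀ A, q A * s ≤ cl A := fun A => Nat.div_mul_le_self _ _
  have hqs2 : ∀ A, cl A ≤ q A * s + s := by
    intro A
    have h1 := Nat.div_add_mod (cl A) s
    have h2 := Nat.mod_lt (cl A) hs
    have h3 : s * (cl A / s) = q A * s := mul_comm _ _
    omega
  -- slots
  have hΓ : Fintype.card (Σ A, Fin (q A)) ≤ Fintype.card (Fin D) := by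
    rw [Fintype.card_sigma, Fintype.card_fin]
    simp only [Fintype.card_fin]
    have h1 : (∑ A, q A) * s ≤ D * s := by
      rw [Finset.sum_mul]
      calc ∑ A, q A * s ≤ ∑ A, cl A := Finset.sum_le_sum fun A _ => hqs A
        _ = n := hcl
        _ ≤ D * s := hn
    exact Nat.le_of_mul_le_mul_right h1 hs
  obtain ⟨ι⟩ := Function.Embedding.nonempty_of_card_le hΓ
  have hemb : ∀ A, Nonempty ((Fin (q A) × P) ↪ {v // S v = A}) := by
    intro A
    apply Function.Embedding.nonempty_of_card_le
    rw [Fintype.card_prod, Fintype.card_fin, hP]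
    exact hqs A
  let e : ∀ A, (Fin (q A) × P) ↪ {v // S v = A} := fun A => (hemb A).some
  let ψ : (Σ A, Fin (q A)) × P → Fin n := fun z => (e z.1.1 (z.1.2, z.2)).1
  have hψS : ∀ z, S (ψ z) = z.1.1 := fun z => (e z.1.1 (z.1.2, z.2)).2
  have hψ : Function.Injective ψ := by
    rintro ⟨⟨A, i⟩, p⟩ ⟨⟨A', i'⟩, p'⟩ h
    have hA : A = A' := by
      have h1 := hψS ⟨⟨A, i⟩, p⟩
      have h2 := hψS ⟨⟨A', i'⟩, p'⟩
      rw [h] at h1
      exact h1.symm.trans h2
    subst hA
    have h1 : e A (i, p) = e A (i', p') := Subtype.ext h
    have h2 := (e A).injective h1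
    rw [Prod.mk.injEq] at h2
    obtain ⟨rfl, rfl⟩ := h2
    rfl
  let T : Fin D → Finset (Fin k) := fun h => if hh : ∃ γ, ι γ = h then hh.choose.1 else ∅
  have hT : ∀ γ, T (ι γ) = γ.1 := by
    intro γ
    have hex : ∃ γ', ι γ' = ι γ := ⟨γ, rfl⟩
    simp only [T]
    rw [dif_pos hex]
    have := ι.injective hex.choose_spec
    rw [this]
  let g : Fin n → Option (Fin D × P) := fun v =>
    if hv : ∃ z, ψ z = v then some (ι hv.choose.1, hv.choose.2) else none
  have hg : ∀ z, g (ψ z) = some (ι z.1, z.2) := by
    intro z
    have hex : ∃ z', ψ z' = ψ z := ⟨z, rfl⟩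
    simp only [g]
    rw [dif_pos hex]
    have := hψ hex.choose_spec
    rw [this]
  have hg' : ∀ v z, g v = some z → ∃ z', ψ z' = v ∧ z = (ι z'.1, z'.2) := by
    intro v z h
    simp only [g] at h
    split_ifs at h with hv
    exact ⟨hv.choose, hv.choose_spec, (Option.some.inj h).symm⟩
  refine ⟨T, g, ?_, ?_, ?_, ?_⟩
  · intro v w z hv hw
    obtain ⟨a, rfl, ha⟩ := hg' v z hv
    obtain ⟨b, rfl, hb⟩ := hg' w z hw
    rw [ha, Prod.mk.injEq] at hb
    have h1 := ι.injective hb.1
    have : a = b := Prod.ext h1 hb.2
    rw [this]
  · intro v z hv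
    obtain ⟨a, rfl, ha⟩ := hg' v z hv
    rw [hψS, ha]
    exact (hT _).symm
  · intro h hne p
    have hex : ∃ γ, ι γ = h := by
      by_contra hno
      simp only [T] at hne
      rw [dif_neg hno] at hne
      exact Finset.not_nonempty_empty hne
    obtain ⟨γ, rfl⟩ := hex
    exact ⟨ψ (γ, p), hg (γ, p)⟩
  · -- counting
    have h1 : (univ.filter fun v => g v = none) = univ \ (univ.image ψ) := by
      ext v
      simp only [Finset.mem_filter, Finset.mem_univ, true_and, Finset.mem_sdiff,
        Finset.mem_image]
      constructor
      · rintro h ⟨z, rfl⟩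
        rw [hg] at h
        exact absurd h (by simp)
      · intro h
        simp only [g]
        rw [dif_neg h]
    rw [h1, Finset.card_sdiff_of_subset (Finset.subset_univ _),
      Finset.card_image_of_injective _ hψ, Finset.card_univ, Finset.card_univ,
      Fintype.card_prod, Fintype.card_sigma, hP, Fintype.card_fin]
    simp only [Fintype.card_fin]
    have h2 : n ≤ (∑ A, q A) * s + 2 ^ k * s := by
      calc n = ∑ A, cl A := hcl.symm
        _ ≤ ∑ A, (q A * s + s) := Finset.sum_le_sum fun A _ => hqs2 A
        _ = (∑ A, q A) * s + 2 ^ k * s := by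
            rw [Finset.sum_add_distrib, Finset.sum_mul, Finset.sum_const, Finset.card_univ,
              Fintype.card_finset, Fintype.card_fin, smul_eq_mul]
    omega

end grouping

end Pool.Agent.H29.CPR
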