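import Mathlib
import Pool.Agent.H29.CPR.Transfer

/-!
# Asymptotic upper bounds for the clique partition number from dual bounds
-/

open Finset Filter

namespace Pool.Agent.H29.CPR

open Pool.Agent.H22.F10f644

theorem exists_ratio (d : ℕ) (η : ℝ) (hη : 0 < η) :
    ∃ X : ℝ, 0 < X ∧ ∀ x c : ℝ, 0 < c → c * X ≤ x → (x + c) ^ d ≤ (1 + η) * x ^ d := by
  have h1 : Tendsto (fun X : ℝ => (1 + X⁻¹) ^ d) atTop (nhds ((1 + 0) ^ d)) :=
    (tendsto_inv_atTop_zero.const_add 1).pow d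
  rw [add_zero, one_pow] at h1
  have h2 : ∀ᶠ X : ℝ in atTop, (1 + X⁻¹) ^ d < 1 + η :=
    h1.eventually (gt_mem_nhds (by linarith))
  obtain ⟨X, hX, hX0⟩ := (h2.and (eventually_gt_atTop 0)).exists
  refine ⟨X, hX0, fun x c hc hx => ?_⟩
  have hx0 : 0 < x := lt_of_lt_of_le (mul_pos hc hX0) hx
  have h3 : x + c ≤ (1 + X⁻¹) * x := by
    have : c ≤ X⁻¹ * x := by
      rw [inv_mul_eq_div, le_div_iff₀ hX0]
      exact hx
    linarith
  calc (x + c) ^ d ≤ ((1 + X⁻¹) * x) ^ d := by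
        apply pow_le_pow_left₀ (by positivity) h3
    _ = (1 + X⁻¹) ^ d * x ^ d := mul_pow _ _ _
    _ ≤ (1 + η) * x ^ d := mul_le_mul_of_nonneg_right hX.le (by positivity)

theorem coprime_step {D t d : ℕ} (hd : 0 < d) (hdD : d < D) :
    Nat.Coprime d (1 + t * D.factorial) := by
  have h1 : d ∣ t * D.factorial :=
    Dvd.dvd.mul_left (Nat.dvd_factorial hd hdD.le) t
  obtain ⟨e, he⟩ := h1
  rw [he]
  simp

/-- the arithmetic of the error terms -/
theorem estimates {V C C' η ε D s n K2 cp' : ℝ} (hV : 0 ≤ V) (hε : 0 < ε) (hC0 : 0 ≤ C')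
    (hCC : C ≤ C') (hη0 : 0 < η) (hη1 : η ≤ 1) (hη2 : V * (3 * η) ≤ ε / 4) (hDpos : 0 < D)
    (hD1 : 1 ≤ D) (hD2 : 32 * (C' + 1) ≤ ε * D) (hD3 : 16 * K2 ≤ ε * D) (hK2 : 0 ≤ K2)
    (hs0 : 0 ≤ s) (hn1 : 1 ≤ n) (hnB : 4 * D / ε ≤ n) (hsn : D * s ≤ (1 + η) * n)
    (hcp : cp' ≤ (V * D ^ 2 + C * D + 1) * s ^ 2 + D + (K2 * s) * n) :
    cp' ≤ (V + ε) * n ^ 2 := by
  have hn0 : 0 ≤ n := by linarith
  have hn2pos : 0 ≤ n ^ 2 := sq_nonneg n
  have hs2 : 0 ≤ s ^ 2 := sq_nonneg s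
  have hDs0 : 0 ≤ D * s := mul_nonneg hDpos.le hs0
  have hDs : (D * s) ^ 2 ≤ ((1 + η) * n) ^ 2 := pow_le_pow_left₀ hDs0 hsn 2
  have hηη : η * η ≤ η * 1 := mul_le_mul_of_nonneg_left hη1 hη0.le
  have hη3 : (1 + η) ^ 2 ≤ 1 + 3 * η := by
    have : (1 + η) ^ 2 = 1 + 2 * η + η * η := by ring
    rw [this]
    linarith
  have hDs2 : (D * s) ^ 2 ≤ (1 + 3 * η) * n ^ 2 := by
    refine hDs.trans ?_
    rw [mul_pow]
    exact mul_le_mul_of_nonneg_right hη3 hn2pos
  have hDs3 : (D * s) ^ 2 ≤ 4 * n ^ 2 := by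
    refine hDs2.trans ?_
    apply mul_le_mul_of_nonneg_right _ hn2pos
    linarith
  have e1 : V * (D * s) ^ 2 ≤ (V + ε / 4) * n ^ 2 := by
    calc V * (D * s) ^ 2 ≤ V * ((1 + 3 * η) * n ^ 2) :=
          mul_le_mul_of_nonneg_left hDs2 hV
      _ = (V + V * (3 * η)) * n ^ 2 := by ring
      _ ≤ (V + ε / 4) * n ^ 2 := by
          apply mul_le_mul_of_nonneg_right _ hn2pos
          linarith
  have e2 : (C * D + 1) * s ^ 2 ≤ ε / 8 * n ^ 2 := by
    have h0 : C * D ≤ C' * D := mul_le_mul_of_nonneg_right hCC hDpos.le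
    have h1 : (C * D + 1) ≤ (C' + 1) * D := by linarith
    have h2 : (C * D + 1) * s ^ 2 ≤ (C' + 1) * D * s ^ 2 :=
      mul_le_mul_of_nonneg_right h1 hs2
    have h3 : (C' + 1) * D * s ^ 2 ≤ (ε * D / 32) * D * s ^ 2 := by
      apply mul_le_mul_of_nonneg_right _ hs2
      apply mul_le_mul_of_nonneg_right _ hDpos.le
      linarith
    have h4 : (ε * D / 32) * D * s ^ 2 = ε / 32 * (D * s) ^ 2 := by ring
    have h5 : ε / 32 * (D * s) ^ 2 ≤ ε / 32 * (4 * n ^ 2) :=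
      mul_le_mul_of_nonneg_left hDs3 (by linarith)
    linarith
  have e3 : (K2 * s) * n ≤ ε / 8 * n ^ 2 := by
    have h1 : K2 * s ≤ ε * D / 16 * s := by
      apply mul_le_mul_of_nonneg_right _ hs0
      linarith
    have h2 : ε * D / 16 * s = ε / 16 * (D * s) := by ring
    have h3 : ε / 16 * (D * s) ≤ ε / 16 * (2 * n) := by
      apply mul_le_mul_of_nonneg_left _ (by linarith)
      refine hsn.trans ?_
      exact mul_le_mul_of_nonneg_right (by linarith) hn0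
    have h4 : K2 * s ≤ ε / 8 * n := by linarith
    calc (K2 * s) * n ≤ (ε / 8 * n) * n :=
          mul_le_mul_of_nonneg_right h4 hn0
      _ = ε / 8 * n ^ 2 := by ring
  have e4 : D ≤ ε / 4 * n ^ 2 := by
    rw [div_le_iff₀ hε] at hnB
    have h1 : D ≤ ε / 4 * n := by linarith
    have hnn : n * 1 ≤ n * n := mul_le_mul_of_nonneg_left hn1 hn0
    have h2 : ε / 4 * n ≤ ε / 4 * n ^ 2 := by
      apply mul_le_mul_of_nonneg_left _ (by linarith)
      rw [sq]
      linarith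
    linarith
  have e5 : (V * D ^ 2 + C * D + 1) * s ^ 2
      = V * (D * s) ^ 2 + (C * D + 1) * s ^ 2 := by ring
  rw [e5] at hcp
  have e6 : (V + ε) * n ^ 2 = (V + ε / 4) * n ^ 2 + ε / 8 * n ^ 2 + ε / 4 * n ^ 2
      + ε / 8 * n ^ 2 + ε / 4 * n ^ 2 := by ring
  rw [e6]
  have e7 : 0 ≤ ε / 4 * n ^ 2 := mul_nonneg (by linarith) hn2pos
  linarith

theorem transfer {k : ℕ} {V C : ℝ} (hV : 0 ≤ V) (hDB : DualBound k V C) (ε : ℝ) (hε : 0 < ε) :
    ∃ n0 : ℕ, ∀ n : ℕ, n0 ≤ n → ∀ S : Fin n → Finset (Fin k),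
      (cp (tg S) : ℝ) ≤ (V + ε) * (n : ℝ) ^ 2 := by
  classical
  -- parameters
  set C' : ℝ := |C| with hC'
  have hC0 : 0 ≤ C' := abs_nonneg _
  have hCC : C ≤ C' := le_abs_self _
  set η : ℝ := min 1 (ε / (12 * (V + 1))) with hη
  have hη0 : 0 < η := by positivity
  have hη1 : η ≤ 1 := min_le_left _ _
  have hη2 : V * (3 * η) ≤ ε / 4 := by
    have h1 : η ≤ ε / (12 * (V + 1)) := min_le_right _ _
    have h2 : (V + 1) * (3 * η) ≤ (V + 1) * (3 * (ε / (12 * (V + 1)))) := by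
      apply mul_le_mul_of_nonneg_left _ (by linarith)
      linarith
    have h3 : (V + 1) * (3 * (ε / (12 * (V + 1)))) = ε / 4 := by
      field_simp
      norm_num
    have h4 : (V + 1) * (3 * η) = V * (3 * η) + 3 * η := by ring
    linarith
  obtain ⟨D0, hD0⟩ := exists_nat_ge (32 * (C' + 1) / ε + 16 * 2 ^ k / ε)
  set D : ℕ := D0 + 2 with hD
  have hDpos : (0 : ℝ) < D := by rw [hD]; positivity
  have hD1 : (1 : ℝ) ≤ D := by rw [hD]; push_cast; linarith [(Nat.cast_nonneg D0 : (0 : ℝ) ≤ D0)]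
  have hDr : 32 * (C' + 1) / ε + 16 * 2 ^ k / ε ≤ D := by
    refine hD0.trans ?_
    rw [hD]
    push_cast
    linarith
  have hD2 : 32 * (C' + 1) ≤ ε * D := by
    have h1 : 32 * (C' + 1) / ε ≤ D := by
      have : 0 ≤ 16 * 2 ^ k / ε := by positivity
      linarith
    rw [div_le_iff₀ hε] at h1
    linarith
  have hD3 : 16 * 2 ^ k ≤ ε * D := by
    have h1 : 16 * 2 ^ k / ε ≤ D := by
      have : 0 ≤ 32 * (C' + 1) / ε := by positivity
      linarith
    rw [div_le_iff₀ hε] at h1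
    linarith
  -- threshold for `N`
  have hblow := fun T : Fin D → Finset (Fin k) =>
    exists_blow_partition (tg T) (V * (D : ℝ) ^ 2 + C * D) (fun y hy => hDB D T y hy) 1 one_pos
  choose N0 hN0 using hblow
  set N1 : ℕ := Finset.univ.sup N0 with hN1
  have hN1' : ∀ T, N0 T ≤ N1 := fun T => Finset.le_sup (Finset.mem_univ T)
  set d : ℕ := Fintype.card (Ed D) with hd
  have hdpos : 0 < d := by
    rw [hd, Fintype.card_pos_iff]
    refine ⟨⟨(⟨0, by omega⟩, ⟨1, by omega⟩), ?_⟩⟩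
    exact Fin.mk_lt_mk.2 Nat.zero_lt_one
  let Nt : ℕ → ℕ := fun t => 1 + t * D.factorial
  have hfac : 1 ≤ D.factorial := Nat.succ_le_of_lt (Nat.factorial_pos D)
  have hNt : ∀ t, t ≤ Nt t := by
    intro t
    simp only [Nt]
    nlinarith
  have hNt0 : ∀ t, Nt t ≠ 0 := by
    intro t
    simp only [Nt]
    omega
  have hNtmono : Monotone Nt := by
    intro a b hab
    simp only [Nt]
    have := Nat.mul_le_mul_right D.factorial hab
    omega
  obtain ⟨X, hX0, hX⟩ := exists_ratio d η hη0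
  obtain ⟨t1, ht1⟩ := exists_nat_ge ((D.factorial : ℝ) * X)
  set t0 : ℕ := max t1 N1 with ht0
  have hratio : ∀ t, t0 ≤ t → ((Nt (t + 1) : ℕ) : ℝ) ^ d ≤ (1 + η) * ((Nt t : ℕ) : ℝ) ^ d := by
    intro t ht
    have h1 : ((Nt (t + 1) : ℕ) : ℝ) = (Nt t : ℕ) + (D.factorial : ℝ) := by
      simp only [Nt]
      push_cast
      ring
    rw [h1]
    apply hX
    · exact_mod_cast Nat.factorial_pos D
    · refine ht1.trans ?_
      have : t1 ≤ Nt t := (le_max_left t1 N1).trans (ht.trans (hNt t))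
      exact_mod_cast this
  obtain ⟨n2, hn2⟩ := exists_nat_ge (4 * (D : ℝ) / ε)
  refine ⟨max (D * (Nt t0) ^ d + 1) (n2 + 1), fun n hn S => ?_⟩
  have hnA : D * (Nt t0) ^ d < n := by
    have := (le_max_left _ _).trans hn
    omega
  have hnB : 4 * (D : ℝ) / ε ≤ n := by
    refine hn2.trans ?_
    have := (le_max_right (D * (Nt t0) ^ d + 1) (n2 + 1)).trans hn
    have h' : n2 ≤ n := by omega
    exact_mod_cast h'
  have hn1 : (1 : ℝ) ≤ n := by
    have := (le_max_right (D * (Nt t0) ^ d + 1) (n2 + 1)).trans hn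
    have h' : 1 ≤ n := by omega
    exact_mod_cast h'
  -- choose `t`
  have hex : ∃ t, n ≤ D * (Nt t) ^ d := by
    refine ⟨n, ?_⟩
    calc n ≤ Nt n := hNt n
      _ = (Nt n) ^ 1 := (pow_one _).symm
      _ ≤ (Nt n) ^ d := Nat.pow_le_pow_right (Nat.pos_of_ne_zero (hNt0 n)) hdpos
      _ = 1 * (Nt n) ^ d := (one_mul _).symm
      _ ≤ D * (Nt n) ^ d := Nat.mul_le_mul_right _ (by omega)
  set t := Nat.find hex with ht
  have htspec : n ≤ D * (Nt t) ^ d := Nat.find_spec hex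
  have htgt : t0 < t := by
    by_contra hle
    push Not at hle
    have : (Nt t) ^ d ≤ (Nt t0) ^ d := Nat.pow_le_pow_left (hNtmono hle) d
    have h' := Nat.mul_le_mul_left D this
    omega
  obtain ⟨t', rfl_t⟩ : ∃ t', t = t' + 1 := ⟨t - 1, by omega⟩
  have ht't0 : t0 ≤ t' := by omega
  have hlt : D * (Nt t') ^ d < n := by
    have := Nat.find_min hex (m := t') (by omega)
    omega
  set N : ℕ := Nt t with hNdef
  have : NeZero N := ⟨hNt0 t⟩
  set s : ℕ := N ^ d with hs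
  have hspos : 0 < s := Nat.pow_pos (Nat.pos_of_ne_zero (hNt0 t))
  have hsn : (D : ℝ) * s ≤ (1 + η) * n := by
    have h1 := hratio t' ht't0
    rw [← rfl_t] at h1
    have h2 : (D : ℝ) * ((Nt t' : ℕ) : ℝ) ^ d ≤ n := by exact_mod_cast hlt.le
    have h3 : ((s : ℕ) : ℝ) = ((Nt t : ℕ) : ℝ) ^ d := by
      rw [hs, hNdef]
      push_cast
      rfl
    rw [h3]
    calc (D : ℝ) * ((Nt t : ℕ) : ℝ) ^ d ≤ D * ((1 + η) * ((Nt t' : ℕ) : ℝ) ^ d) :=
          mul_le_mul_of_nonneg_left h1 hDpos.le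
      _ = (1 + η) * (D * ((Nt t' : ℕ) : ℝ) ^ d) := by ring
      _ ≤ (1 + η) * n := mul_le_mul_of_nonneg_left h2 (by linarith)
  have hcardP : Fintype.card (Part D N) = s := by
    rw [hs, hd]
    simp [ZMod.card]
  obtain ⟨T, g, hg1, hg2, hg3, hg4⟩ := exists_grouping S D s hspos (Part D N) hcardP htspec
  have hNge : N0 T ≤ N := by
    refine (hN1' T).trans ((le_max_right t1 N1).trans ?_)
    exact (ht0 ▸ htgt.le).trans (hNt t)
  obtain ⟨F, hF, hFc⟩ := hN0 T N hNge (fun d' h1 h2 => coprime_step h1 h2)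
  have hglue := glue S T g hg1 hg2 hg3 F hF
  rw [hcardP] at hFc
  have hcp : (cp (tg S) : ℝ) ≤ (V * (D : ℝ) ^ 2 + C * D + 1) * (s : ℝ) ^ 2 + D
      + (2 ^ k * s) * n := by
    have h1 : (cp (tg S) : ℝ) ≤ (F.card : ℝ) + D + ((univ.filter fun v => g v = none).card : ℝ) * n := by
      exact_mod_cast hglue
    have h2 : ((univ.filter fun v => g v = none).card : ℝ) ≤ 2 ^ k * s := by
      exact_mod_cast hg4
    have h3 : ((univ.filter fun v => g v = none).card : ℝ) * n ≤ (2 ^ k * s) * n :=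
      mul_le_mul_of_nonneg_right h2 (by linarith)
    linarith
  exact estimates hV hε hC0 hCC hη0 hη1 hη2 hDpos hD1 hD2 hD3 (by positivity)
    (Nat.cast_nonneg s) hn1 hnB hsn hcp

/-! ### Clique covers and types -/

theorem exists_types {n k : ℕ} (G : SimpleGraph (Fin n)) (F : Finset (Finset (Fin n)))
    (hF : IsCliqueCover G F) (hk : F.card = k) : ∃ S : Fin n → Finset (Fin k), G = tg S := by
  classical
  let e : F ≃ Fin k := (F.equivFin).trans (finCongr hk)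
  refine ⟨fun v => univ.filter fun i => v ∈ (e.symm i).1, ?_⟩
  ext u v
  constructor
  · intro h
    obtain ⟨K, hK, hu, hv⟩ := hF.2 u v h
    refine ⟨h.ne, e ⟨K, hK⟩, ?_⟩
    simp [hu, hv]
  · rintro ⟨hne, i, hi⟩
    simp only [Finset.mem_inter, Finset.mem_filter, Finset.mem_univ, true_and] at hi
    exact (hF.1 _ (e.symm i).2).2 u hi.1 v hi.2 hne

/-- the partition into single edges -/
theorem isCliquePartition_edges {n : ℕ} (G : SimpleGraph (Fin n)) [DecidableRel G.Adj] :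
    IsCliquePartition G (G.edgeFinset.image Sym2.toFinset) := by
  classical
  constructor
  · intro K hK
    obtain ⟨e, he, rfl⟩ := Finset.mem_image.1 hK
    induction e using Sym2.ind with
    | _ a b =>
      rw [SimpleGraph.mem_edgeFinset, SimpleGraph.mem_edgeSet] at he
      rw [Sym2.toFinset_mk_eq]
      refine ⟨by rw [Finset.card_pair he.ne], ?_⟩
      intro u hu v hv huv
      simp only [Finset.mem_insert, Finset.mem_singleton] at hu hv
      rcases hu with rfl | rfl <;> rcases hv with rfl | rfl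
      · exact absurd rfl huv
      · exact he
      · exact he.symm
      · exact absurd rfl huv
  · intro u v huv
    refine ⟨{u, v}, ⟨?_, by simp, by simp⟩, ?_⟩
    · refine Finset.mem_image.2 ⟨s(u, v), ?_, ?_⟩
      · rw [SimpleGraph.mem_edgeFinset, SimpleGraph.mem_edgeSet]; exact huv
      · exact Sym2.toFinset_mk_eq
    · rintro K ⟨hK, hu, hv⟩
      obtain ⟨e, he, rfl⟩ := Finset.mem_image.1 hK
      rw [Sym2.mem_toFinset] at hu hv
      have : e = s(u, v) := (Sym2.mem_and_mem_iff huv.ne).1 ⟨hu, hv⟩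
      rw [this]
      exact Sym2.toFinset_mk_eq

theorem two_mul_cp_le {n : ℕ} (G : SimpleGraph (Fin n)) : (cp G : ℝ) ≤ (n : ℝ) ^ 2 / 2 := by
  classical
  have h1 : cp G ≤ (G.edgeFinset.image Sym2.toFinset).card :=
    Nat.sInf_le ⟨_, isCliquePartition_edges G, rfl⟩
  have h2 : cp G ≤ n.choose 2 := by
    refine h1.trans (Finset.card_image_le.trans ?_)
    have := G.card_edgeFinset_le_card_choose_two
    simpa using this
  have h3 : (n.choose 2 : ℝ) = n * (n - 1) / 2 := by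
    rw [Nat.cast_choose_two]
  have h4 : (cp G : ℝ) ≤ (n.choose 2 : ℝ) := by exact_mod_cast h2
  rw [h3] at h4
  have hn : (0 : ℝ) ≤ n := Nat.cast_nonneg _
  nlinarith

theorem cc_spec {n : ℕ} (G : SimpleGraph (Fin n)) :
    ∃ F : Finset (Finset (Fin n)), IsCliqueCover G F ∧ F.card = cc G := by
  classical
  have hne : {m | ∃ F : Finset (Finset (Fin n)), IsCliqueCover G F ∧ F.card = m}.Nonempty := by
    refine ⟨_, G.edgeFinset.image Sym2.toFinset, ⟨(isCliquePartition_edges G).1, ?_⟩, rfl⟩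
    intro u v huv
    obtain ⟨K, hK, -⟩ := (isCliquePartition_edges G).2 u v huv
    exact ⟨K, hK⟩
  exact Nat.sInf_mem hne

/-- **Upper bounds from dual bounds.** -/
theorem upper_of_dual (c : ℝ) (hc0 : 0 ≤ c) (K0 : ℕ) (hc : 1 / 2 ≤ c * K0)
    (hV : ∀ k, k < K0 → ∃ V C, 0 ≤ V ∧ DualBound k V C ∧ V ≤ c * k) (ε : ℝ) (hε : 0 < ε) :
    ∃ n0 : ℕ, ∀ n : ℕ, n0 ≤ n → ∀ G : SimpleGraph (Fin n), G ≠ ⊥ →
      (cp G : ℝ) ≤ (c + ε) * cc G * (n : ℝ) ^ 2 := by
  classical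
  have h1 : ∀ k, ∃ n0 : ℕ, k < K0 → ∀ n : ℕ, n0 ≤ n → ∀ S : Fin n → Finset (Fin k),
      (cp (tg S) : ℝ) ≤ (c * k + ε) * (n : ℝ) ^ 2 := by
    intro k
    by_cases hk : k < K0
    · obtain ⟨V, C, hV0, hDB, hVc⟩ := hV k hk
      obtain ⟨n0, hn0⟩ := transfer hV0 hDB ε hε
      refine ⟨n0, fun _ n hn S => (hn0 n hn S).trans ?_⟩
      apply mul_le_mul_of_nonneg_right _ (by positivity)
      linarith
    · exact ⟨0, fun h => absurd h hk⟩
  choose n0 hn0 using h1
  refine ⟨(Finset.range K0).sup n0, fun n hn G hG => ?_⟩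
  obtain ⟨F, hF, hFc⟩ := cc_spec G
  set k := cc G with hk
  have hkpos : 1 ≤ k := by
    rw [Nat.one_le_iff_ne_zero]
    intro h0
    rw [h0, Finset.card_eq_zero] at hFc
    apply hG
    ext u v
    simp only [SimpleGraph.bot_adj, iff_false]
    intro huv
    obtain ⟨K, hK, -⟩ := hF.2 u v huv
    rw [hFc] at hK
    exact absurd hK (Finset.notMem_empty K)
  have hkr : (1 : ℝ) ≤ k := by exact_mod_cast hkpos
  by_cases hkK : k < K0
  · obtain ⟨S, hS⟩ := exists_types G F hF hFc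
    have h2 : n0 k ≤ n := (Finset.le_sup (Finset.mem_range.2 hkK)).trans hn
    have h3 := hn0 k hkK n h2 S
    rw [← hS] at h3
    refine h3.trans ?_
    apply mul_le_mul_of_nonneg_right _ (by positivity)
    nlinarith
  · push Not at hkK
    refine (two_mul_cp_le G).trans ?_
    have h2 : c * K0 ≤ c * k := mul_le_mul_of_nonneg_left (by exact_mod_cast hkK) hc0
    have h3 : 1 / 2 ≤ (c + ε) * k := by nlinarith
    nlinarith [sq_nonneg (n : ℝ)]

end Pool.Agent.H29.CPR
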