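import Mathlib
import Pool.Agent.H29.CPR.Main

/-!
# The simple dual bound `V_k = (k - 1) / (4 (k + 1))`
-/

open Finset

namespace Pool.Agent.H29.CPR

open Pool.Agent.H22.F10f644

section rounding

variable {V : Type} [DecidableEq V]

/-- the multi-affine form -/
noncomputable def maf (y : V → V → ℝ) (C : Finset V) (p : V → ℝ) : ℝ :=
  ∑ u ∈ C, ∑ v ∈ C, if u = v then 0 else p u * p v * y u v

theorem maf_affine (y : V → V → ℝ) (C : Finset V) (p : V → ℝ) (w : V) :
    maf y C p = (1 - p w) * maf y C (Function.update p w 0)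
      + p w * maf y C (Function.update p w 1) := by
  unfold maf
  rw [Finset.mul_sum, Finset.mul_sum, ← Finset.sum_add_distrib]
  refine Finset.sum_congr rfl fun u _ => ?_
  rw [Finset.mul_sum, Finset.mul_sum, ← Finset.sum_add_distrib]
  refine Finset.sum_congr rfl fun v _ => ?_
  by_cases huv : u = v
  · simp [huv]
  · rw [if_neg huv, if_neg huv, if_neg huv]
    by_cases hu : u = w
    · subst hu
      rw [Function.update_self, Function.update_self, Function.update_of_ne (Ne.symm huv),
        Function.update_of_ne (Ne.symm huv)]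
      ring
    · by_cases hv : v = w
      · subst hv
        rw [Function.update_self, Function.update_self, Function.update_of_ne huv,
          Function.update_of_ne huv]
        ring
      · rw [Function.update_of_ne hu, Function.update_of_ne hu, Function.update_of_ne hv,
          Function.update_of_ne hv]
        ring

theorem exists_round (y : V → V → ℝ) (C S : Finset V) (p : V → ℝ)
    (hp : ∀ u ∈ S, 0 ≤ p u ∧ p u ≤ 1) :
    ∃ p' : V → ℝ, (∀ u ∈ S, p' u = 0 ∨ p' u = 1) ∧ (∀ u, u ∉ S → p' u = p u) ∧
      maf y C p ≤ maf y C p' := by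
  induction S using Finset.induction_on with
  | empty => exact ⟨p, by simp, by simp, le_rfl⟩
  | insert w S hw ih =>
    obtain ⟨p', h1, h2, h3⟩ := ih (fun u hu => hp u (Finset.mem_insert_of_mem hu))
    have hpw := hp w (Finset.mem_insert_self _ _)
    have hp'w : p' w = p w := h2 w hw
    have haff := maf_affine y C p' w
    by_cases hle : maf y C (Function.update p' w 0) ≤ maf y C (Function.update p' w 1)
    · refine ⟨Function.update p' w 1, ?_, ?_, ?_⟩
      · intro u hu
        by_cases huw : u = w
        · subst huw; right; exact Function.update_self _ _ _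
        · rw [Function.update_of_ne huw]
          exact h1 u (Finset.mem_of_mem_insert_of_ne hu huw)
      · intro u hu
        rw [Finset.mem_insert, not_or] at hu
        rw [Function.update_of_ne hu.1]
        exact h2 u hu.2
      · refine h3.trans ?_
        rw [haff, hp'w]
        have := mul_le_mul_of_nonneg_left hle (sub_nonneg.2 hpw.2)
        linarith
    · push Not at hle
      refine ⟨Function.update p' w 0, ?_, ?_, ?_⟩
      · intro u hu
        by_cases huw : u = w
        · subst huw; left; exact Function.update_self _ _ _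
        · rw [Function.update_of_ne huw]
          exact h1 u (Finset.mem_of_mem_insert_of_ne hu huw)
      · intro u hu
        rw [Finset.mem_insert, not_or] at hu
        rw [Function.update_of_ne hu.1]
        exact h2 u hu.2
      · refine h3.trans ?_
        rw [haff, hp'w]
        have := mul_le_mul_of_nonneg_left hle.le hpw.1
        linarith

/-- **Weighted large cliques.** -/
theorem maf_le (y : V → V → ℝ) (C : Finset V) (c : ℝ)
    (hc : ∀ K ⊆ C, pw y K ≤ c) (p : V → ℝ)
    (hp : ∀ u ∈ C, 0 ≤ p u ∧ p u ≤ 1) : maf y C p ≤ c := by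
  obtain ⟨p', h1, -, h3⟩ := exists_round y C C p hp
  refine h3.trans ?_
  have h4 : maf y C p' = pw y (C.filter fun u => p' u = 1) := by
    unfold maf pw
    rw [Finset.sum_filter]
    refine Finset.sum_congr rfl fun u hu => ?_
    rcases h1 u hu with h | h
    · rw [if_neg (by rw [h]; norm_num)]
      refine Finset.sum_eq_zero fun v _ => ?_
      rw [h]
      simp
    · rw [if_pos h, Finset.sum_filter]
      refine Finset.sum_congr rfl fun v hv => ?_
      rcases h1 v hv with h' | h'
      · rw [h, h']
        simp
      · rw [h, h']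
        simp
  rw [h4]
  exact hc _ (Finset.filter_subset _ _)

end rounding

section mantel

/-- **Weighted Mantel inequality.** -/
theorem weighted_mantel {D : ℕ} (R : Fin D → Fin D → ℝ) (r : ℝ) (hr : 0 ≤ r)
    (h0 : ∀ u v, 0 ≤ R u v) (hs : ∀ u v, R u v = R v u)
    (h : ∀ u v, 0 < R u v → ∀ w, R u w + R v w ≤ r) :
    ∑ u, ∑ v, R u v ≤ r * (D : ℝ) ^ 2 / 2 := by
  classical
  set S : Fin D → ℝ := fun u => ∑ v, R u v with hS
  have hS0 : ∀ u, 0 ≤ S u := fun u => Finset.sum_nonneg fun v _ => h0 u v
  have h1 : ∀ u v, R u v * (S u + S v) ≤ R u v * (r * D) := by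
    intro u v
    rcases (h0 u v).eq_or_lt with h' | h'
    · rw [← h']; simp
    · apply mul_le_mul_of_nonneg_left _ h'.le
      calc S u + S v = ∑ w, (R u w + R v w) := by rw [Finset.sum_add_distrib]
        _ ≤ ∑ _w : Fin D, r := Finset.sum_le_sum fun w _ => h u v h' w
        _ = r * D := by simp [mul_comm]
  have h2 : ∑ u, ∑ v, R u v * (S u + S v) = 2 * ∑ u, S u ^ 2 := by
    have e1 : ∑ u, ∑ v, R u v * S u = ∑ u, S u ^ 2 := by
      refine Finset.sum_congr rfl fun u _ => ?_
      rw [← Finset.sum_mul, sq]
    have e2 : ∑ u, ∑ v, R u v * S v = ∑ u, S u ^ 2 := by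
      rw [Finset.sum_comm, ← e1]
      refine Finset.sum_congr rfl fun u _ => Finset.sum_congr rfl fun v _ => ?_
      rw [hs]
    have e3 : ∑ u, ∑ v, R u v * (S u + S v) = ∑ u, ∑ v, R u v * S u + ∑ u, ∑ v, R u v * S v := by
      rw [← Finset.sum_add_distrib]
      refine Finset.sum_congr rfl fun u _ => ?_
      rw [← Finset.sum_add_distrib]
      refine Finset.sum_congr rfl fun v _ => ?_
      ring
    rw [e3, e1, e2]
    ring
  have h3 : ∑ u, ∑ v, R u v * (r * D) = (∑ u, S u) * (r * D) := by
    rw [Finset.sum_mul]
    refine Finset.sum_congr rfl fun u _ => ?_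
    rw [← Finset.sum_mul]
  have h4 : 2 * ∑ u, S u ^ 2 ≤ (∑ u, S u) * (r * D) := by
    rw [← h2, ← h3]
    exact Finset.sum_le_sum fun u _ => Finset.sum_le_sum fun v _ => h1 u v
  have h5 : (∑ u, S u) ^ 2 ≤ D * ∑ u, S u ^ 2 := by
    have := sq_sum_le_card_mul_sum_sq (s := (Finset.univ : Finset (Fin D))) (f := S)
    simpa using this
  have hT : ∑ u, ∑ v, R u v = ∑ u, S u := rfl
  rw [hT]
  have hT0 : 0 ≤ ∑ u, S u := Finset.sum_nonneg fun u _ => hS0 u
  have hD0 : (0 : ℝ) ≤ D := Nat.cast_nonneg _
  rcases hT0.eq_or_lt with h' | h'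
  · rw [← h']
    positivity
  · have h6 : 2 * (∑ u, S u) ^ 2 ≤ (r * (D : ℝ) ^ 2) * ∑ u, S u := by
      have := mul_le_mul_of_nonneg_left h4 hD0
      nlinarith
    have h7 : (2 * ∑ u, S u) * ∑ u, S u ≤ (r * (D : ℝ) ^ 2) * ∑ u, S u := by nlinarith
    have h8 := le_of_mul_le_mul_right h7 h'
    linarith

end mantel

section overlap

variable {k : ℕ}

theorem overlap_le_one (A B : Finset (Fin k)) (hA : A.Nonempty) (hB : B.Nonempty) :
    ((A ∩ B).card : ℝ) / (√(A.card : ℝ) * √(B.card : ℝ)) ≤ 1 := by
  have ha : (0 : ℝ) < A.card := by exact_mod_cast hA.card_pos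
  have hb : (0 : ℝ) < B.card := by exact_mod_cast hB.card_pos
  rw [div_le_one (by positivity), ← Real.sqrt_mul ha.le]
  apply Real.le_sqrt_of_sq_le
  have h1 : ((A ∩ B).card : ℝ) ≤ A.card := by exact_mod_cast Finset.card_le_card Finset.inter_subset_left
  have h2 : ((A ∩ B).card : ℝ) ≤ B.card := by exact_mod_cast Finset.card_le_card Finset.inter_subset_right
  have h3 : (0 : ℝ) ≤ (A ∩ B).card := Nat.cast_nonneg _
  nlinarith

theorem overlap_ge (A B : Finset (Fin k)) (h : (A ∩ B).Nonempty) :
    2 / ((k : ℝ) + 1) ≤ ((A ∩ B).card : ℝ) / (√(A.card : ℝ) * √(B.card : ℝ)) := by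
  have hA : A.Nonempty := h.mono Finset.inter_subset_left
  have hB : B.Nonempty := h.mono Finset.inter_subset_right
  have ha : (0 : ℝ) < A.card := by exact_mod_cast hA.card_pos
  have hb : (0 : ℝ) < B.card := by exact_mod_cast hB.card_pos
  have hc : (1 : ℝ) ≤ (A ∩ B).card := by exact_mod_cast h.card_pos
  have hsum : (A.card : ℝ) + B.card ≤ k + (A ∩ B).card := by
    have h1 := Finset.card_union_add_card_inter A B
    have h2 : (A ∪ B).card ≤ k := by
      have := Finset.card_le_univ (A ∪ B)
      simpa using this
    have h3 : A.card + B.card ≤ k + (A ∩ B).card := by omega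
    exact_mod_cast h3
  have hk : (0 : ℝ) ≤ k := Nat.cast_nonneg _
  have hk1 : (1 : ℝ) ≤ k := by
    have h2 : (A ∩ B).card ≤ k := by
      have := Finset.card_le_univ (A ∩ B)
      simpa using this
    have h3 : 1 ≤ (A ∩ B).card := h.card_pos
    have : 1 ≤ k := by omega
    exact_mod_cast this
  have hsq : √(A.card : ℝ) * √(B.card : ℝ) ≤ ((A.card : ℝ) + B.card) / 2 := by
    have h1 := Real.sq_sqrt ha.le
    have h2 := Real.sq_sqrt hb.le
    nlinarith [sq_nonneg (√(A.card : ℝ) - √(B.card : ℝ))]
  have hpos : 0 < √(A.card : ℝ) * √(B.card : ℝ) := by positivity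
  rw [div_le_div_iff₀ (by linarith) hpos]
  nlinarith

end overlap

section bound

theorem dualBound_simple (k : ℕ) (hk : 1 ≤ k) :
    DualBound k (((k : ℝ) - 1) / (4 * (k + 1))) k := by
  classical
  intro D T y hy
  have hk' : (1 : ℝ) ≤ k := by exact_mod_cast hk
  set Y : Fin D → Fin D → ℝ := fun u v => (y u v + y v u) / 2 with hY
  have hYs : ∀ u v, Y u v = Y v u := fun u v => by simp only [hY]; ring
  have hpw : ∀ K, pw Y K = pw y K := by
    intro K
    have h1 : pw (fun u v => y v u) K = pw y K := by
      unfold pw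
      rw [Finset.sum_comm]
      refine Finset.sum_congr rfl fun u _ => Finset.sum_congr rfl fun v _ => ?_
      by_cases h : u = v
      · simp [h]
      · simp [h, Ne.symm h]
    have h2 : pw Y K = (pw y K + pw (fun u v => y v u) K) / 2 := by
      unfold pw
      rw [← Finset.sum_add_distrib, Finset.sum_div]
      refine Finset.sum_congr rfl fun u _ => ?_
      rw [← Finset.sum_add_distrib, Finset.sum_div]
      refine Finset.sum_congr rfl fun v _ => ?_
      simp only [hY]
      split_ifs <;> simp
    rw [h2, h1]
    ring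
  have htot : tot (tg T) Y = tot (tg T) y := by
    have h1 : tot (tg T) (fun u v => y v u) = tot (tg T) y := by
      unfold tot
      rw [Finset.sum_comm]
      refine Finset.sum_congr rfl fun u _ => Finset.sum_congr rfl fun v _ => ?_
      simp only [(tg T).adj_comm v u]
    have h2 : tot (tg T) Y = (tot (tg T) y + tot (tg T) (fun u v => y v u)) / 2 := by
      unfold tot
      rw [← Finset.sum_add_distrib, Finset.sum_div]
      refine Finset.sum_congr rfl fun u _ => ?_
      rw [← Finset.sum_add_distrib, Finset.sum_div]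
      refine Finset.sum_congr rfl fun v _ => ?_
      simp only [hY]
      split_ifs <;> simp
    rw [h2, h1]
    ring
  rw [← htot]
  have hYK : ∀ K, IsCl (tg T) K → pw Y K ≤ 2 := fun K hK => by rw [hpw]; exact hy K hK
  -- small cliques
  have hpair : ∀ u v, (tg T).Adj u v → Y u v ≤ 1 := by
    intro u v huv
    have hne := huv.ne
    have h1 := hYK {u, v} (by
      intro a ha b hb hab
      simp only [Finset.mem_insert, Finset.mem_singleton] at ha hb
      rcases ha with rfl | rfl <;> rcases hb with rfl | rfl
      · exact absurd rfl hab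
      · exact huv
      · exact huv.symm
      · exact absurd rfl hab)
    unfold pw at h1
    rw [Finset.sum_pair hne, Finset.sum_pair hne, Finset.sum_pair hne] at h1
    simp only [if_true, if_neg hne, if_neg hne.symm] at h1
    have := hYs u v
    linarith
  have htri : ∀ u v w, (tg T).Adj u v → (tg T).Adj u w → (tg T).Adj v w →
      Y u v + Y u w + Y v w ≤ 1 := by
    intro u v w huv huw hvw
    have h1 := hYK {u, v, w} (by
      intro a ha b hb hab
      simp only [Finset.mem_insert, Finset.mem_singleton] at ha hb
      rcases ha with rfl | rfl | rfl <;> rcases hb with rfl | rfl | rfl <;>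
        first
        | exact absurd rfl hab
        | assumption
        | exact huv.symm
        | exact huw.symm
        | exact hvw.symm)
    unfold pw at h1
    have n1 := huv.ne
    have n2 := huw.ne
    have n3 := hvw.ne
    have m1 : u ∉ ({v, w} : Finset (Fin D)) := by simp [n1, n2]
    have m2 : v ∉ ({w} : Finset (Fin D)) := by simp [n3]
    rw [Finset.sum_insert m1, Finset.sum_insert m2, Finset.sum_singleton,
      Finset.sum_insert m1, Finset.sum_insert m2, Finset.sum_singleton,
      Finset.sum_insert m1, Finset.sum_insert m2, Finset.sum_singleton,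
      Finset.sum_insert m1, Finset.sum_insert m2, Finset.sum_singleton] at h1
    simp only [if_true, if_neg n1, if_neg n2, if_neg n3, if_neg n1.symm, if_neg n2.symm,
      if_neg n3.symm] at h1
    have s1 := hYs u v
    have s2 := hYs u w
    have s3 := hYs v w
    linarith
  -- large cliques
  let p : Fin D → ℝ := fun u => 1 / √((T u).card : ℝ)
  have hp : ∀ u, (T u).Nonempty → 0 ≤ p u ∧ p u ≤ 1 := by
    intro u hu
    have h1 : (1 : ℝ) ≤ (T u).card := by exact_mod_cast hu.card_pos
    have h2 : (1 : ℝ) ≤ √((T u).card : ℝ) := by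
      rw [show (1 : ℝ) = √1 by simp]
      exact Real.sqrt_le_sqrt h1
    refine ⟨by positivity, ?_⟩
    simp only [p]
    rw [div_le_one (by linarith)]
    exact h2
  have hbig : ∀ i : Fin k, maf Y (univ.filter fun u => i ∈ T u) p ≤ 2 := by
    intro i
    apply maf_le
    · intro K hK
      apply hYK
      intro a ha b hb hab
      have h1 := hK ha
      have h2 := hK hb
      rw [Finset.mem_filter] at h1 h2
      exact ⟨hab, i, Finset.mem_inter.2 ⟨h1.2, h2.2⟩⟩
    · intro u hu
      rw [Finset.mem_filter] at hu
      exact hp u ⟨i, hu.2⟩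
  -- overlap weights
  let ov : Fin D → Fin D → ℝ := fun u v =>
    ((T u ∩ T v).card : ℝ) / (√((T u).card : ℝ) * √((T v).card : ℝ))
  have hsumbig : ∑ u, ∑ v, (if (tg T).Adj u v then ov u v * Y u v else 0) ≤ 2 * k := by
    have h1 : ∑ i : Fin k, maf Y (univ.filter fun u => i ∈ T u) p ≤ 2 * k := by
      calc ∑ i : Fin k, maf Y (univ.filter fun u => i ∈ T u) p ≤ ∑ _i : Fin k, (2 : ℝ) :=
            Finset.sum_le_sum fun i _ => hbig i
        _ = 2 * k := by simp [mul_comm]
    refine le_trans (le_of_eq ?_) h1
    have h2 : ∀ i : Fin k, maf Y (univ.filter fun u => i ∈ T u) p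
        = ∑ u, ∑ v, (if i ∈ T u ∧ i ∈ T v ∧ u ≠ v then p u * p v * Y u v else 0) := by
      intro i
      unfold maf
      rw [Finset.sum_filter]
      refine Finset.sum_congr rfl fun u _ => ?_
      by_cases hu : i ∈ T u
      · rw [if_pos hu, Finset.sum_filter]
        refine Finset.sum_congr rfl fun v _ => ?_
        by_cases hv : i ∈ T v
        · by_cases huv : u = v
          · simp [huv]
          · simp [hu, hv, huv]
        · simp [hv]
      · simp [hu]
    have h2' : ∑ i : Fin k, maf Y (univ.filter fun u => i ∈ T u) p = ∑ i : Fin k, ∑ u, ∑ v,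
        (if i ∈ T u ∧ i ∈ T v ∧ u ≠ v then p u * p v * Y u v else 0) :=
      Finset.sum_congr rfl fun i _ => h2 i
    rw [h2']
    symm
    rw [Finset.sum_comm]
    refine Finset.sum_congr rfl fun u _ => ?_
    rw [Finset.sum_comm]
    refine Finset.sum_congr rfl fun v _ => ?_
    by_cases huv : u = v
    · subst huv
      simp
    · have h3 : ∑ i : Fin k, (if i ∈ T u ∧ i ∈ T v ∧ u ≠ v then p u * p v * Y u v else 0)
          = ((T u ∩ T v).card : ℝ) * (p u * p v * Y u v) := by
        have h4 : ∀ i : Fin k, (if i ∈ T u ∧ i ∈ T v ∧ u ≠ v then p u * p v * Y u v else 0)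
            = if i ∈ T u ∩ T v then p u * p v * Y u v else 0 := by
          intro i
          by_cases hi : i ∈ T u ∩ T v
          · rw [Finset.mem_inter] at hi
            simp [hi, huv]
          · have hi' : ¬ (i ∈ T u ∧ i ∈ T v ∧ u ≠ v) := fun hh =>
              hi (Finset.mem_inter.2 ⟨hh.1, hh.2.1⟩)
            rw [if_neg hi, if_neg hi']
        rw [Finset.sum_congr rfl fun i _ => h4 i, ← Finset.sum_filter, Finset.sum_const,
          nsmul_eq_mul, Finset.filter_mem_eq_inter, Finset.univ_inter]
      rw [h3]
      by_cases hadj : (T u ∩ T v).Nonempty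
      · rw [if_pos ⟨huv, hadj⟩]
        simp only [ov, p]
        ring
      · have : (T u ∩ T v).card = 0 := by
          rw [Finset.card_eq_zero]
          exact Finset.not_nonempty_iff_eq_empty.1 hadj
        rw [this, if_neg (fun hh => hadj hh.2)]
        simp
  -- remainder
  set r : ℝ := 1 - 2 / ((k : ℝ) + 1) with hr
  have hr0 : 0 ≤ r := by
    rw [hr, sub_nonneg, div_le_one (by linarith)]
    linarith
  let R : Fin D → Fin D → ℝ := fun u v =>
    if (tg T).Adj u v then (1 - ov u v) * max (Y u v) 0 else 0
  have hov1 : ∀ u v, (tg T).Adj u v → 0 ≤ 1 - ov u v := by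
    intro u v huv
    have := overlap_le_one (T u) (T v) (huv.2.mono Finset.inter_subset_left)
      (huv.2.mono Finset.inter_subset_right)
    simp only [ov]
    linarith
  have hov2 : ∀ u v, (tg T).Adj u v → 1 - ov u v ≤ r := by
    intro u v huv
    have := overlap_ge (T u) (T v) huv.2
    simp only [ov, hr]
    linarith
  have hR0 : ∀ u v, 0 ≤ R u v := by
    intro u v
    simp only [R]
    split_ifs with h
    · exact mul_nonneg (hov1 u v h) (le_max_right _ _)
    · exact le_rfl
  have hRs : ∀ u v, R u v = R v u := by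
    intro u v
    simp only [R, ov]
    by_cases h : (tg T).Adj u v
    · rw [if_pos h, if_pos h.symm, hYs u v, Finset.inter_comm, mul_comm (√((T u).card : ℝ))]
    · rw [if_neg h, if_neg (fun hh => h hh.symm)]
  have hR1 : ∀ u v, R u v ≤ r * max (Y u v) 0 := by
    intro u v
    simp only [R]
    split_ifs with h
    · exact mul_le_mul_of_nonneg_right (hov2 u v h) (le_max_right _ _)
    · exact mul_nonneg hr0 (le_max_right _ _)
  have hRle : ∀ u v, R u v ≤ r := by
    intro u v
    by_cases h : (tg T).Adj u v
    · refine (hR1 u v).trans ?_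
      have := hpair u v h
      have h2 : max (Y u v) 0 ≤ 1 := max_le this zero_le_one
      nlinarith
    · simp only [R]
      rw [if_neg h]
      exact hr0
  have hRR : ∀ u v, 0 < R u v → ∀ w, R u w + R v w ≤ r := by
    intro u v huv w
    have hadj : (tg T).Adj u v := by
      by_contra h
      simp only [R] at huv
      rw [if_neg h] at huv
      exact lt_irrefl _ huv
    have hYpos : 0 < Y u v := by
      by_contra h
      push Not at h
      simp only [R] at huv
      rw [if_pos hadj, max_eq_right h, mul_zero] at huv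
      exact lt_irrefl _ huv
    by_cases hw1 : (tg T).Adj u w
    · by_cases hw2 : (tg T).Adj v w
      · have h1 := htri u v w hadj hw1 hw2
        have h2 := hR1 u w
        have h3 := hR1 v w
        have h4 := hpair u w hw1
        have h5 := hpair v w hw2
        have h6 : max (Y u w) 0 + max (Y v w) 0 ≤ 1 := by
          rcases le_total (Y u w) 0 with a | a <;> rcases le_total (Y v w) 0 with b | b
          · rw [max_eq_right a, max_eq_right b]; norm_num
          · rw [max_eq_right a, max_eq_left b]; linarith
          · rw [max_eq_left a, max_eq_right b]; linarith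
          · rw [max_eq_left a, max_eq_left b]; linarith
        nlinarith
      · have h1 : R v w = 0 := by simp only [R]; rw [if_neg hw2]
        rw [h1, add_zero]
        exact hRle u w
    · have h1 : R u w = 0 := by simp only [R]; rw [if_neg hw1]
      rw [h1, zero_add]
      exact hRle v w
  have hmantel := weighted_mantel R r hr0 hR0 hRs hRR
  have hfin : tot (tg T) Y ≤ r * (D : ℝ) ^ 2 / 2 + 2 * k := by
    have h1 : tot (tg T) Y ≤ ∑ u, ∑ v, R u v
        + ∑ u, ∑ v, (if (tg T).Adj u v then ov u v * Y u v else 0) := by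
      unfold tot
      rw [← Finset.sum_add_distrib]
      refine Finset.sum_le_sum fun u _ => ?_
      rw [← Finset.sum_add_distrib]
      refine Finset.sum_le_sum fun v _ => ?_
      simp only [R]
      split_ifs with h
      · have h2 := hov1 u v h
        have h3 := le_max_left (Y u v) 0
        nlinarith
      · simp
    linarith
  have hV : 2 * (((k : ℝ) - 1) / (4 * (k + 1)) * (D : ℝ) ^ 2 + k * D) 
      = r * (D : ℝ) ^ 2 / 2 + 2 * k * D := by
    rw [hr]
    field_simp
    ring
  rw [hV]
  rcases Nat.eq_zero_or_pos D with hD | hD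
  · subst hD
    simp [tot]
  · have hD1 : (1 : ℝ) ≤ D := by exact_mod_cast hD
    have : (2 : ℝ) * k ≤ 2 * k * D := by nlinarith
    linarith

end bound

end Pool.Agent.H29.CPR
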